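import Pool.Agent.R502.FG.Ram
import Pool.Agent.H336R2.V.TotLog

/-! The average of the truncated singular series over the multiples of `q`. -/

set_option autoImplicit false

namespace Pool.Agent.R502.FG
open Finset

/-- the mean value -/
noncomputable def QQ (R q : ℕ) : ℝ := ∑ r ∈ (Sq R).filter (fun r => r ∣ q), 1 / (Nat.totient r : ℝ)

lemma gcd_facts {r : ℕ} (q : ℕ) (hr : Squarefree r) :
    r = Nat.gcd r q * (r / Nat.gcd r q) ∧ Nat.Coprime (Nat.gcd r q) (r / Nat.gcd r q) ∧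
      ∀ p : ℕ, p.Prime → p ∣ r / Nat.gcd r q → ¬ p ∣ q := by
  have h1 : r = Nat.gcd r q * (r / Nat.gcd r q) := (Nat.mul_div_cancel' (Nat.gcd_dvd_left r q)).symm
  have h2 : Nat.Coprime (Nat.gcd r q) (r / Nat.gcd r q) := by
    have h3 : Squarefree (Nat.gcd r q * (r / Nat.gcd r q)) := by rw [← h1]; exact hr
    exact Nat.coprime_of_squarefree_mul h3
  refine ⟨h1, h2, fun p hp hpr hpq => ?_⟩
  have h3 : p ∣ Nat.gcd r q := by
    apply Nat.dvd_gcd _ hpq
    rw [h1]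
    exact hpr.mul_left _
  exact Nat.not_coprime_of_dvd_of_dvd hp.one_lt h3 hpr h2

lemma cc_mul {r : ℕ} (q : ℕ) (hr : Squarefree r) (k : ℤ) :
    cc r (k * q) = Nat.totient (Nat.gcd r q) * cc (r / Nat.gcd r q) k := by
  classical
  obtain ⟨h1, h2, h3⟩ := gcd_facts q hr
  set r₁ := Nat.gcd r q with hr₁
  set r₂ := r / r₁ with hr₂
  have hs1 : Squarefree r₁ := hr.squarefree_of_dvd (Nat.gcd_dvd_left r q)
  have e : cc r (k * q) = cc r₁ (k * q) * cc r₂ (k * q) := by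
    unfold cc
    conv_lhs => rw [h1]
    rw [h2.primeFactors_mul, prod_union h2.disjoint_primeFactors]
  rw [e]
  congr 1
  · rw [tot_prod hs1]
    unfold cc
    apply prod_congr rfl
    intro p hp
    rw [if_pos]
    have : p ∣ q := (Nat.dvd_of_mem_primeFactors hp).trans (Nat.gcd_dvd_right r q)
    exact (Int.natCast_dvd_natCast.2 this).mul_left _
  · unfold cc
    apply prod_congr rfl
    intro p hp
    have hpp := Nat.prime_of_mem_primeFactors hp
    have hpq := h3 p hpp (Nat.dvd_of_mem_primeFactors hp)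
    have hiff : ((p : ℤ) ∣ k * q) ↔ (p : ℤ) ∣ k := by
      constructor
      · intro h
        rcases (Nat.prime_iff_prime_int.1 hpp).dvd_or_dvd h with h4 | h4
        · exact h4
        · exact absurd (Int.natCast_dvd_natCast.1 h4) hpq
      · intro h; exact h.mul_right _
    simp only [hiff]

/-- the sign in the expansion of Ramanujan's sum -/
noncomputable def sg (r d : ℕ) : ℝ := ∏ _p ∈ r.primeFactors \ d.primeFactors, (-1 : ℝ)

lemma abs_sg (r d : ℕ) : |sg r d| = 1 := by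
  unfold sg
  rw [abs_prod]
  simp

lemma cc_exp {r : ℕ} (hr : Squarefree r) (k : ℤ) :
    cc r k = ∑ d ∈ r.divisors, (if (d : ℤ) ∣ k then (d : ℝ) else 0) * sg r d := by
  classical
  have h := sum_div2 hr (fun p => if (p : ℤ) ∣ k then (p : ℝ) else 0) (fun _ => -1)
  unfold cc
  have e : ∀ p ∈ r.primeFactors, (if (p : ℤ) ∣ k then (p : ℝ) - 1 else -1) =
      (if (p : ℤ) ∣ k then (p : ℝ) else 0) + -1 := by
    intro p _
    split_ifs <;> ring
  rw [prod_congr rfl e, ← h]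
  apply sum_congr rfl
  intro d hd
  rw [Nat.mem_divisors] at hd
  have hds := hr.squarefree_of_dvd hd.1
  unfold sg
  congr 1
  by_cases hdk : (d : ℤ) ∣ k
  · rw [if_pos hdk]
    have e2 : ∀ p ∈ d.primeFactors, (if (p : ℤ) ∣ k then (p : ℝ) else 0) = (p : ℝ) := by
      intro p hp
      rw [if_pos]
      exact (Int.natCast_dvd_natCast.2 (Nat.dvd_of_mem_primeFactors hp)).trans hdk
    rw [prod_congr rfl e2, ← Nat.cast_prod, Nat.prod_primeFactors_of_squarefree hds]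
  · rw [if_neg hdk]
    have hex : ∃ p ∈ d.primeFactors, ¬ (p : ℤ) ∣ k := by
      by_contra hcon
      push Not at hcon
      apply hdk
      have h2 : d ∣ k.natAbs := by
        rw [← Nat.prod_primeFactors_of_squarefree hds]
        apply Finset.prod_primes_dvd
        · intro p hp
          exact (Nat.prime_of_mem_primeFactors hp).prime
        · intro p hp
          exact Int.natCast_dvd.1 (hcon p hp)
      exact Int.natCast_dvd.2 h2
    obtain ⟨p, hp1, hp2⟩ := hex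
    apply prod_eq_zero hp1
    rw [if_neg hp2]

lemma sum_sg {r : ℕ} (hr : Squarefree r) (hr1 : r ≠ 1) : ∑ d ∈ r.divisors, sg r d = 0 := by
  have h := sum_div2 hr (fun _ => (1 : ℝ)) (fun _ => -1)
  simp only [prod_const_one, one_mul] at h
  unfold sg
  rw [h]
  obtain ⟨p, hp, hpr⟩ := Nat.exists_prime_and_dvd hr1
  apply prod_eq_zero (Nat.mem_primeFactors.2 ⟨hp, hpr, hr.ne_zero⟩)
  norm_num

/-- partial sums of Ramanujan's sum -/
lemma abs_sum_cc {r : ℕ} (hr : Squarefree r) (hr1 : r ≠ 1) (m : ℕ) :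
    |∑ k ∈ Ioc 0 m, cc r (k : ℤ)| ≤ ∑ d ∈ r.divisors, min (d : ℝ) m := by
  classical
  have h1 : ∑ k ∈ Ioc 0 m, cc r (k : ℤ) = ∑ d ∈ r.divisors, sg r d * ((d : ℝ) * ((m / d : ℕ) : ℝ) - m) := by
    have h2 : ∑ k ∈ Ioc 0 m, cc r (k : ℤ) = ∑ d ∈ r.divisors, sg r d * ((d : ℝ) * ((m / d : ℕ) : ℝ)) := by
      have e0 : ∀ k ∈ Ioc 0 m, cc r ((k : ℕ) : ℤ) =
          ∑ d ∈ r.divisors, (if (d : ℤ) ∣ ((k : ℕ) : ℤ) then (d : ℝ) else 0) * sg r d := fun k _ => cc_exp hr _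
      rw [sum_congr rfl e0, sum_comm]
      apply sum_congr rfl
      intro d _
      rw [← sum_mul, mul_comm]
      congr 1
      have e : ∀ k ∈ Ioc 0 m, (if (d : ℤ) ∣ (k : ℤ) then (d : ℝ) else 0) = if d ∣ k then (d : ℝ) else 0 := by
        intro k _
        simp only [Int.natCast_dvd_natCast]
      rw [sum_congr rfl e, ← sum_filter, sum_const, Nat.Ioc_filter_dvd_card_eq_div, nsmul_eq_mul, mul_comm]
    have h3 : ∑ d ∈ r.divisors, sg r d * ((d : ℝ) * ((m / d : ℕ) : ℝ) - m) =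
        ∑ d ∈ r.divisors, sg r d * ((d : ℝ) * ((m / d : ℕ) : ℝ)) - (∑ d ∈ r.divisors, sg r d) * m := by
      rw [sum_mul, ← sum_sub_distrib]
      apply sum_congr rfl
      intro d _
      ring
    rw [h2, h3, sum_sg hr hr1, zero_mul, sub_zero]
  rw [h1]
  refine (abs_sum_le_sum_abs _ _).trans ?_
  apply sum_le_sum
  intro d hd
  rw [abs_mul, abs_sg, one_mul]
  have h4 := Nat.div_add_mod m d
  have h5 : (d : ℝ) * ((m / d : ℕ) : ℝ) - m = -((m % d : ℕ) : ℝ) := by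
    have : ((d * (m / d) + m % d : ℕ) : ℝ) = m := by rw [h4]
    push_cast at this
    linarith
  rw [h5, abs_neg, Nat.abs_cast, le_min_iff]
  rw [Nat.mem_divisors] at hd
  have hd0 : 0 < d := Nat.pos_of_ne_zero (ne_zero_of_dvd_ne_zero hd.2 hd.1)
  exact ⟨by exact_mod_cast (Nat.mod_lt m hd0).le, by exact_mod_cast Nat.mod_le m d⟩

/-- the error of the average -/
noncomputable def WW (R m : ℕ) : ℝ := ∑ r ∈ Icc 1 R, (1 / (Nat.totient r : ℝ) ^ 2) * ∑ g ∈ r.divisors, min (g : ℝ) m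

lemma avg (R q m : ℕ) (hq : 1 ≤ q) :
    |∑ k ∈ Ioc 0 m, SS R ((k : ℤ) * q) - m * QQ R q| ≤ ((q : ℝ) / Nat.totient q) * WW R m := by
  classical
  have h1 : ∑ k ∈ Ioc 0 m, SS R ((k : ℤ) * q) - m * QQ R q =
      ∑ r ∈ (Sq R).filter (fun r => ¬ r ∣ q), (1 / (Nat.totient r : ℝ) ^ 2) *
        (Nat.totient (Nat.gcd r q) * ∑ k ∈ Ioc 0 m, cc (r / Nat.gcd r q) (k : ℤ)) := by
    unfold SS QQ
    rw [sum_comm, ← sum_filter_add_sum_filter_not (Sq R) (fun r => r ∣ q), mul_sum]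
    have h2 : ∑ r ∈ (Sq R).filter (fun r => r ∣ q), ∑ k ∈ Ioc 0 m, cc r ((k : ℤ) * q) / (Nat.totient r : ℝ) ^ 2 =
        ∑ r ∈ (Sq R).filter (fun r => r ∣ q), (m : ℝ) * (1 / (Nat.totient r : ℝ)) := by
      apply sum_congr rfl
      intro r hr
      rw [mem_filter, mem_Sq] at hr
      obtain ⟨⟨⟨hr1, _⟩, hrs⟩, hrq⟩ := hr
      have hφ : (0 : ℝ) < Nat.totient r := by exact_mod_cast Nat.totient_pos.2 (by omega)
      have h3 : ∀ k ∈ Ioc 0 m, cc r ((k : ℤ) * q) / (Nat.totient r : ℝ) ^ 2 = 1 / (Nat.totient r : ℝ) := by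
        intro k _
        rw [cc_mul q hrs, Nat.gcd_eq_left hrq, Nat.div_self (by omega), cc_one]
        field_simp
      rw [sum_congr rfl h3, sum_const, Nat.card_Ioc, nsmul_eq_mul, Nat.sub_zero]
    rw [h2, add_sub_cancel_left]
    apply sum_congr rfl
    intro r hr
    rw [mem_filter, mem_Sq] at hr
    rw [mul_sum, mul_sum]
    apply sum_congr rfl
    intro k _
    rw [cc_mul q hr.1.2]
    ring
  rw [h1]
  refine (abs_sum_le_sum_abs _ _).trans ?_
  have h2 : ∀ r ∈ (Sq R).filter (fun r => ¬ r ∣ q), |(1 / (Nat.totient r : ℝ) ^ 2) *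
        (Nat.totient (Nat.gcd r q) * ∑ k ∈ Ioc 0 m, cc (r / Nat.gcd r q) (k : ℤ))| ≤
      (1 / (Nat.totient (Nat.gcd r q) : ℝ)) * ((1 / (Nat.totient (r / Nat.gcd r q) : ℝ) ^ 2) *
        ∑ g ∈ (r / Nat.gcd r q).divisors, min (g : ℝ) m) := by
    intro r hr
    rw [mem_filter, mem_Sq] at hr
    obtain ⟨⟨⟨hr1, _⟩, hrs⟩, hrq⟩ := hr
    obtain ⟨a1, a2, a3⟩ := gcd_facts q hrs
    set r₁ := Nat.gcd r q with hr₁
    set r₂ := r / r₁ with hr₂
    have hr₁0 : r₁ ≠ 0 := Nat.gcd_ne_zero_left (by omega)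
    have hr₂0 : r₂ ≠ 0 := by
      intro h
      rw [h, mul_zero] at a1
      omega
    have hr₂1 : r₂ ≠ 1 := by
      intro h
      rw [h, mul_one] at a1
      apply hrq
      rw [a1]
      exact Nat.gcd_dvd_right r q
    have hs2 : Squarefree r₂ := hrs.squarefree_of_dvd (by rw [a1]; exact dvd_mul_left _ _)
    have hφ1 : (0 : ℝ) < Nat.totient r₁ := by exact_mod_cast Nat.totient_pos.2 (by omega)
    have hφ2 : (0 : ℝ) < Nat.totient r₂ := by exact_mod_cast Nat.totient_pos.2 (Nat.pos_of_ne_zero hr₂0)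
    have hφ : (Nat.totient r : ℝ) = Nat.totient r₁ * Nat.totient r₂ := by
      rw [a1, Nat.totient_mul a2]; push_cast; rfl
    rw [hφ, abs_mul, abs_mul, abs_of_pos (by positivity : (0 : ℝ) < 1 / ((Nat.totient r₁ : ℝ) * Nat.totient r₂) ^ 2),
      abs_of_pos hφ1]
    calc 1 / ((Nat.totient r₁ : ℝ) * Nat.totient r₂) ^ 2 * (Nat.totient r₁ * |∑ k ∈ Ioc 0 m, cc r₂ (k : ℤ)|)
        ≤ 1 / ((Nat.totient r₁ : ℝ) * Nat.totient r₂) ^ 2 * (Nat.totient r₁ * ∑ d ∈ r₂.divisors, min (d : ℝ) m) := by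
          have := abs_sum_cc hs2 hr₂1 m
          gcongr
      _ = _ := by field_simp
  refine (sum_le_sum h2).trans ?_
  rw [H336V.TotLog.div_totient q hq]
  unfold WW
  rw [sum_mul_sum, ← sum_product']
  set G : ℕ × ℕ → ℝ := fun x => (1 / (Nat.totient x.1 : ℝ)) * ((1 / (Nat.totient x.2 : ℝ) ^ 2) *
        ∑ g ∈ x.2.divisors, min (g : ℝ) m) with hG
  have hG0 : ∀ x, 0 ≤ G x := by
    intro x
    rw [hG]
    have : 0 ≤ ∑ g ∈ x.2.divisors, min (g : ℝ) m := sum_nonneg fun g _ => le_min (Nat.cast_nonneg _) (Nat.cast_nonneg _)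
    positivity
  have hinj : Set.InjOn (fun r => (Nat.gcd r q, r / Nat.gcd r q)) ((Sq R).filter (fun r => ¬ r ∣ q) : Set ℕ) := by
    intro r hr s hs h
    rw [mem_coe, mem_filter, mem_Sq] at hr hs
    simp only [Prod.mk.injEq] at h
    calc r = Nat.gcd r q * (r / Nat.gcd r q) := (gcd_facts q hr.1.2).1
      _ = Nat.gcd s q * (s / Nat.gcd s q) := by rw [h.2, h.1]
      _ = s := (gcd_facts q hs.1.2).1.symm
  calc ∑ r ∈ (Sq R).filter (fun r => ¬ r ∣ q), (1 / (Nat.totient (Nat.gcd r q) : ℝ)) * ((1 / (Nat.totient (r / Nat.gcd r q) : ℝ) ^ 2) *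
        ∑ g ∈ (r / Nat.gcd r q).divisors, min (g : ℝ) m) =
        ∑ x ∈ ((Sq R).filter (fun r => ¬ r ∣ q)).image (fun r => (Nat.gcd r q, r / Nat.gcd r q)), G x := by
        rw [sum_image hinj]
    _ ≤ ∑ x ∈ (q.divisors.filter Squarefree) ×ˢ Icc 1 R, G x := by
        apply sum_le_sum_of_subset_of_nonneg _ (fun x _ _ => hG0 x)
        intro x hx
        rw [mem_image] at hx
        obtain ⟨r, hr, rfl⟩ := hx
        rw [mem_filter, mem_Sq] at hr
        rw [mem_product, mem_filter, Nat.mem_divisors, mem_Icc]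
        have hr₁0 : 0 < Nat.gcd r q := Nat.gcd_pos_of_pos_right _ (by omega)
        refine ⟨⟨⟨Nat.gcd_dvd_right r q, by omega⟩, hr.1.2.squarefree_of_dvd (Nat.gcd_dvd_left r q)⟩, ?_, ?_⟩
        · exact Nat.div_pos (Nat.le_of_dvd (by omega) (Nat.gcd_dvd_left r q)) hr₁0
        · exact (Nat.div_le_self _ _).trans hr.1.1.2

/-- the error is small -/
lemma WW_le : ∃ C : ℝ, 0 < C ∧ ∀ R m : ℕ, WW R m ≤ C * (m : ℝ) ^ (3 / 4 : ℝ) := by
  classical
  obtain ⟨c, hc, hphi⟩ := H343.phi_bound (1 / 4) (by norm_num)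
  have hs1 : Summable (fun n : ℕ => 1 / (n : ℝ) ^ (3 / 2 : ℝ)) := Real.summable_one_div_nat_rpow.2 (by norm_num)
  have hs2 : Summable (fun n : ℕ => 1 / (n : ℝ) ^ (5 / 4 : ℝ)) := Real.summable_one_div_nat_rpow.2 (by norm_num)
  set Z1 := ∑' n : ℕ, 1 / (n : ℝ) ^ (3 / 2 : ℝ) with hZ1
  set Z2 := ∑' n : ℕ, 1 / (n : ℝ) ^ (5 / 4 : ℝ) with hZ2
  have hZ10 : 0 ≤ Z1 := tsum_nonneg fun n => by positivity
  have hZ20 : 0 ≤ Z2 := tsum_nonneg fun n => by positivity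
  refine ⟨1 / c ^ 4 * Z1 * Z2 + 1, by positivity, fun R m => ?_⟩
  have hφ : ∀ n : ℕ, 1 ≤ n → 1 / (Nat.totient n : ℝ) ^ 2 ≤ 1 / c ^ 2 * (1 / (n : ℝ) ^ (3 / 2 : ℝ)) := by
    intro n hn
    have hn0 : (0 : ℝ) < n := by exact_mod_cast hn
    have h1 := hphi n hn
    have h2 : (c * (n : ℝ) ^ (1 - 1 / 4 : ℝ)) ^ 2 ≤ (Nat.totient n : ℝ) ^ 2 :=
      pow_le_pow_left₀ (by positivity) h1 2
    have h3 : (c * (n : ℝ) ^ (1 - 1 / 4 : ℝ)) ^ 2 = c ^ 2 * (n : ℝ) ^ (3 / 2 : ℝ) := by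
      rw [mul_pow, ← Real.rpow_natCast ((n : ℝ) ^ (1 - 1 / 4 : ℝ)), ← Real.rpow_mul hn0.le]
      norm_num
    rw [h3] at h2
    calc 1 / (Nat.totient n : ℝ) ^ 2 ≤ 1 / (c ^ 2 * (n : ℝ) ^ (3 / 2 : ℝ)) :=
          one_div_le_one_div_of_le (by positivity) h2
      _ = 1 / c ^ 2 * (1 / (n : ℝ) ^ (3 / 2 : ℝ)) := by rw [one_div_mul_one_div]
  -- swap
  have h1 : WW R m = ∑ g ∈ Icc 1 R, min (g : ℝ) m * ∑ r ∈ (Icc 1 R).filter (fun r => g ∣ r), 1 / (Nat.totient r : ℝ) ^ 2 := by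
    unfold WW
    have h2 : ∀ r ∈ Icc 1 R, (1 / (Nat.totient r : ℝ) ^ 2) * ∑ g ∈ r.divisors, min (g : ℝ) m =
        ∑ g ∈ Icc 1 R, if g ∣ r then min (g : ℝ) m * (1 / (Nat.totient r : ℝ) ^ 2) else 0 := by
      intro r hr
      rw [mem_Icc] at hr
      rw [← sum_filter, mul_sum]
      have e : r.divisors = (Icc 1 R).filter (fun g => g ∣ r) := by
        ext g
        rw [mem_filter, mem_Icc, Nat.mem_divisors]
        constructor
        · rintro ⟨h, _⟩
          have h1 := Nat.pos_of_dvd_of_pos h (by omega)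
          have h2 := Nat.le_of_dvd (by omega) h
          exact ⟨⟨h1, by omega⟩, h⟩
        · rintro ⟨_, h⟩
          exact ⟨h, by omega⟩
      rw [e]
      apply sum_congr rfl
      intro g _
      ring
    rw [sum_congr rfl h2, sum_comm]
    apply sum_congr rfl
    intro g _
    rw [← sum_filter, mul_sum]
  have h3 : ∀ g ∈ Icc 1 R, min (g : ℝ) m * ∑ r ∈ (Icc 1 R).filter (fun r => g ∣ r), 1 / (Nat.totient r : ℝ) ^ 2 ≤
      (1 / c ^ 4 * Z1 * (m : ℝ) ^ (3 / 4 : ℝ)) * (1 / (g : ℝ) ^ (5 / 4 : ℝ)) := by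
    intro g hg
    rw [mem_Icc] at hg
    have hg0 : (0 : ℝ) < g := by exact_mod_cast (by omega : 0 < g)
    have h4 : ∑ r ∈ (Icc 1 R).filter (fun r => g ∣ r), 1 / (Nat.totient r : ℝ) ^ 2 ≤
        1 / c ^ 2 * (1 / (g : ℝ) ^ (3 / 2 : ℝ)) * (1 / c ^ 2 * Z1) := by
      calc ∑ r ∈ (Icc 1 R).filter (fun r => g ∣ r), 1 / (Nat.totient r : ℝ) ^ 2
          ≤ ∑ r ∈ (Icc 1 R).image (fun s => g * s), 1 / (Nat.totient r : ℝ) ^ 2 := by
            apply sum_le_sum_of_subset_of_nonneg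
            · intro r hr
              rw [mem_filter, mem_Icc] at hr
              obtain ⟨s, rfl⟩ := hr.2
              rw [mem_image]
              refine ⟨s, ?_, rfl⟩
              rw [mem_Icc]
              have hs0 : 0 < s := Nat.pos_of_ne_zero (by rintro rfl; simp at hr)
              exact ⟨hs0, (Nat.le_mul_of_pos_left s (by omega)).trans hr.1.2⟩
            · intro r _ _; positivity
        _ = ∑ s ∈ Icc 1 R, 1 / (Nat.totient (g * s) : ℝ) ^ 2 := by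
            rw [sum_image]
            intro s _ t _ h
            exact Nat.eq_of_mul_eq_mul_left (by omega) h
        _ ≤ ∑ s ∈ Icc 1 R, (1 / (Nat.totient g : ℝ) ^ 2) * (1 / (Nat.totient s : ℝ) ^ 2) := by
            apply sum_le_sum
            intro s hs
            rw [mem_Icc] at hs
            have a1 : (0 : ℝ) < Nat.totient g := by exact_mod_cast Nat.totient_pos.2 (by omega)
            have a2 : (0 : ℝ) < Nat.totient s := by exact_mod_cast Nat.totient_pos.2 (by omega)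
            rw [one_div_mul_one_div, ← mul_pow]
            apply one_div_le_one_div_of_le (by positivity)
            apply pow_le_pow_left₀ (by positivity)
            exact_mod_cast Nat.totient_super_multiplicative g s
        _ = (1 / (Nat.totient g : ℝ) ^ 2) * ∑ s ∈ Icc 1 R, (1 / (Nat.totient s : ℝ) ^ 2) := by rw [mul_sum]
        _ ≤ (1 / c ^ 2 * (1 / (g : ℝ) ^ (3 / 2 : ℝ))) * (1 / c ^ 2 * Z1) := by
            apply mul_le_mul (hφ g (by omega)) _ (sum_nonneg fun _ _ => by positivity) (by positivity)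
            calc ∑ s ∈ Icc 1 R, (1 / (Nat.totient s : ℝ) ^ 2) ≤ ∑ s ∈ Icc 1 R, 1 / c ^ 2 * (1 / (s : ℝ) ^ (3 / 2 : ℝ)) :=
                  sum_le_sum fun s hs => hφ s (mem_Icc.1 hs).1
              _ = 1 / c ^ 2 * ∑ s ∈ Icc 1 R, 1 / (s : ℝ) ^ (3 / 2 : ℝ) := by rw [mul_sum]
              _ ≤ 1 / c ^ 2 * Z1 := by
                  apply mul_le_mul_of_nonneg_left _ (by positivity)
                  exact hs1.sum_le_tsum _ (fun n _ => by positivity)
    have h5 : min (g : ℝ) m ≤ (g : ℝ) ^ (1 / 4 : ℝ) * (m : ℝ) ^ (3 / 4 : ℝ) := by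
      rcases le_total (g : ℝ) m with h | h
      · rw [min_eq_left h]
        calc (g : ℝ) = (g : ℝ) ^ (1 / 4 : ℝ) * (g : ℝ) ^ (3 / 4 : ℝ) := by
              rw [← Real.rpow_add hg0]; norm_num
          _ ≤ (g : ℝ) ^ (1 / 4 : ℝ) * (m : ℝ) ^ (3 / 4 : ℝ) := by
              apply mul_le_mul_of_nonneg_left _ (by positivity)
              exact Real.rpow_le_rpow hg0.le h (by norm_num)
      · rw [min_eq_right h]
        rcases Nat.eq_zero_or_pos m with hm | hm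
        · rw [hm, Nat.cast_zero]; positivity
        have hm0 : (0 : ℝ) < m := by exact_mod_cast hm
        calc (m : ℝ) = (m : ℝ) ^ (1 / 4 : ℝ) * (m : ℝ) ^ (3 / 4 : ℝ) := by
              rw [← Real.rpow_add hm0]; norm_num
          _ ≤ (g : ℝ) ^ (1 / 4 : ℝ) * (m : ℝ) ^ (3 / 4 : ℝ) := by
              apply mul_le_mul_of_nonneg_right _ (by positivity)
              exact Real.rpow_le_rpow hm0.le h (by norm_num)
    calc min (g : ℝ) m * ∑ r ∈ (Icc 1 R).filter (fun r => g ∣ r), 1 / (Nat.totient r : ℝ) ^ 2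
        ≤ ((g : ℝ) ^ (1 / 4 : ℝ) * (m : ℝ) ^ (3 / 4 : ℝ)) * (1 / c ^ 2 * (1 / (g : ℝ) ^ (3 / 2 : ℝ)) * (1 / c ^ 2 * Z1)) :=
          mul_le_mul h5 h4 (sum_nonneg fun _ _ => by positivity) (by positivity)
      _ = (1 / c ^ 4 * Z1 * (m : ℝ) ^ (3 / 4 : ℝ)) * ((g : ℝ) ^ (1 / 4 : ℝ) / (g : ℝ) ^ (3 / 2 : ℝ)) := by
          field_simp
      _ = (1 / c ^ 4 * Z1 * (m : ℝ) ^ (3 / 4 : ℝ)) * (1 / (g : ℝ) ^ (5 / 4 : ℝ)) := by
          congr 1
          have g1 : (g : ℝ) ^ (3 / 2 : ℝ) = (g : ℝ) ^ (1 / 4 : ℝ) * (g : ℝ) ^ (5 / 4 : ℝ) := by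
            rw [← Real.rpow_add hg0]; norm_num
          have g2 : 0 < (g : ℝ) ^ (1 / 4 : ℝ) := by positivity
          have g3 : 0 < (g : ℝ) ^ (5 / 4 : ℝ) := by positivity
          rw [g1]
          field_simp
  rw [h1]
  refine (sum_le_sum h3).trans ?_
  rw [← mul_sum]
  calc (1 / c ^ 4 * Z1 * (m : ℝ) ^ (3 / 4 : ℝ)) * ∑ g ∈ Icc 1 R, 1 / (g : ℝ) ^ (5 / 4 : ℝ)
      ≤ (1 / c ^ 4 * Z1 * (m : ℝ) ^ (3 / 4 : ℝ)) * Z2 := by
        apply mul_le_mul_of_nonneg_left _ (by positivity)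
        exact hs2.sum_le_tsum _ (fun n _ => by positivity)
    _ ≤ (1 / c ^ 4 * Z1 * Z2 + 1) * (m : ℝ) ^ (3 / 4 : ℝ) := by
        have : 0 ≤ (m : ℝ) ^ (3 / 4 : ℝ) := by positivity
        nlinarith

end Pool.Agent.R502.FG
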