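import Pool.Agent.R502.FG.Third

/-! Classes with two small primes, and classes with no small prime, for every modulus. -/

set_option autoImplicit false
set_option maxHeartbeats 4000000

namespace Pool.Agent.R502.FG
open Finset Filter
open Pool.Agent.H442R2.KF (piN)

lemma card_cop (q : ℕ) : ((range q).filter (fun a => a.Coprime q)).card = Nat.totient q := by
  rw [Nat.totient_eq_card_coprime]
  congr 1
  apply filter_congr
  intro a _
  exact Nat.coprime_comm

/-- the primes up to a multiple of the modulus -/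
lemma pi_up (ε : ℝ) (hε : 0 < ε) : ∀ᶠ q : ℕ in atTop, ∀ H : ℕ, 1 ≤ H →
    (piN (H * q) : ℝ) ≤ (1 + ε) * ((H : ℝ) * q / Real.log q) := by
  have t1 : Tendsto (fun k : ℕ => Real.log k) atTop atTop :=
    Real.tendsto_log_atTop.comp tendsto_natCast_atTop_atTop
  have f0 : ∀ᶠ x : ℝ in atTop, (Nat.primeCounting ⌊x⌋₊ : ℝ) * Real.log x / x ≤ 1 + ε :=
    (Pool.Agent.Cov.PNT.pi_tendsto.eventually_le_const (by linarith : (1 : ℝ) < 1 + ε))
  obtain ⟨x₀, hx₀⟩ := eventually_atTop.1 f0
  filter_upwards [t1.eventually_ge_atTop 1, eventually_ge_atTop 3, eventually_ge_atTop ⌈x₀⌉₊] with q hL1 hq3 hqx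
  intro H hH1
  have hL0 : 0 < Real.log q := by linarith
  have hq0 : (0 : ℝ) < q := by exact_mod_cast (by omega : 0 < q)
  have hH1r : (1 : ℝ) ≤ H := by exact_mod_cast hH1
  have g0 : (q : ℝ) ≤ (H : ℝ) * q := le_mul_of_one_le_left hq0.le hH1r
  have hx0 : 0 < (H : ℝ) * q := by positivity
  have g1 : x₀ ≤ (H : ℝ) * q := by
    have g2 : x₀ ≤ q := (Nat.le_ceil x₀).trans (by exact_mod_cast hqx)
    linarith
  have g2 := hx₀ _ g1
  have g3 : ⌊(H : ℝ) * q⌋₊ = H * q := by
    rw [← Nat.cast_mul, Nat.floor_natCast]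
  rw [g3, ← piN_eq, div_le_iff₀ hx0] at g2
  have g4 : Real.log q ≤ Real.log ((H : ℝ) * q) := Real.log_le_log hq0 g0
  have g5 : (piN (H * q) : ℝ) * Real.log q ≤ (1 + ε) * ((H : ℝ) * q) :=
    (mul_le_mul_of_nonneg_left g4 (Nat.cast_nonneg _)).trans g2
  rw [mul_div_assoc', le_div_iff₀ hL0]
  exact g5

open Classical in
/-- the reduced classes with two primes up to `lam φ(q) log q` -/
noncomputable def Two (lam : ℝ) (q : ℕ) : Finset ℕ :=
  (range q).filter (fun a => a.Coprime q ∧ ∃ p₁ p₂ : ℕ, p₁.Prime ∧ p₂.Prime ∧ p₁ < p₂ ∧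
      p₁ ≡ a [MOD q] ∧ p₂ ≡ a [MOD q] ∧ (p₂ : ℝ) ≤ lam * (Nat.totient q * Real.log q))

open Classical in
/-- the reduced classes with no prime up to `(1 + c) φ(q) log q` -/
noncomputable def Zed (c : ℝ) (q : ℕ) : Finset ℕ :=
  (range q).filter (fun a => a.Coprime q ∧ ∀ p : ℕ, p.Prime → p ≡ a [MOD q] →
      (1 + c) * (Nat.totient q * Real.log q) < p)

/-- for every large modulus, a positive proportion of the reduced classes contain two primes
below `lam φ(q) log q`, for every `lam > 1/2` -/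
theorem two_primes (lam : ℝ) (hlam : 1 / 2 < lam) : ∃ c : ℝ, 0 < c ∧ ∀ᶠ q : ℕ in atTop,
    c * Nat.totient q ≤ ((Two lam q).card : ℝ) := by
  classical
  set lo : ℝ := (lam + 1 / 2) / 2 with hlo
  obtain ⟨c, hc, h⟩ := twos lo lam (by rw [hlo]; linarith) (by rw [hlo]; linarith)
  obtain ⟨C3, hC3, hrat⟩ := H336V.TotLog.div_totient_le ((lam - lo) / 2) (by rw [hlo]; linarith)
  have t1 : Tendsto (fun k : ℕ => Real.log k) atTop atTop :=
    Real.tendsto_log_atTop.comp tendsto_natCast_atTop_atTop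
  have hd : 0 < lam - lo := by rw [hlo]; linarith
  refine ⟨c, hc, ?_⟩
  filter_upwards [h, t1.eventually_ge_atTop 1, t1.eventually_ge_atTop (2 * C3 / (lam - lo)),
    eventually_ge_atTop 3] with q hq hL1 hL2 hq3
  set L := Real.log q with hL
  have hL0 : 0 < L := by linarith
  have hq0 : (0 : ℝ) < q := by exact_mod_cast (by omega : 0 < q)
  have hφ0 : (0 : ℝ) < Nat.totient q := by exact_mod_cast Nat.totient_pos.2 (by omega)
  set Φ : ℝ := (Nat.totient q : ℝ) with hΦ
  have hqL : (q : ℝ) ≤ (lam - lo) * (Φ * L) := by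
    have h1 := hrat q (by omega)
    rw [← hL, div_le_iff₀ hφ0] at h1
    rw [div_le_iff₀ hd] at hL2
    have h2 : (C3 + (lam - lo) / 2 * L) * Φ ≤ ((lam - lo) * L) * Φ := mul_le_mul_of_nonneg_right (by linarith) hφ0.le
    linarith
  set H : ℕ := ⌊lam * (Φ * L) / q⌋₊ with hH
  have hHup : (H : ℝ) * q ≤ lam * (Φ * L) := by
    have : (H : ℝ) ≤ lam * (Φ * L) / q := Nat.floor_le (by positivity)
    rwa [le_div_iff₀ hq0] at this
  have hHlow : lo * (Φ * L) ≤ (H : ℝ) * q := by
    have : lam * (Φ * L) / q < (H : ℝ) + 1 := Nat.lt_floor_add_one _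
    rw [div_lt_iff₀ hq0] at this
    linarith
  refine (hq H hHlow hHup).trans ?_
  have hsub : (Icc 1 q).filter (fun a => 2 ≤ Np H q a) ⊆ Two lam q := by
    intro a ha
    rw [mem_filter, mem_Icc] at ha
    obtain ⟨⟨ha1, haq⟩, hN⟩ := ha
    unfold Np at hN
    obtain ⟨i0, hi0, j0, hj0, hne0⟩ := one_lt_card.1 (by omega : 1 < ((range H).filter (fun i => (a + i * q).Prime)).card)
    obtain ⟨i, j, hi, hj, hij⟩ : ∃ i j, i ∈ (range H).filter (fun i => (a + i * q).Prime) ∧
        j ∈ (range H).filter (fun i => (a + i * q).Prime) ∧ i < j := by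
      rcases lt_or_gt_of_ne hne0 with h | h
      · exact ⟨i0, j0, hi0, hj0, h⟩
      · exact ⟨j0, i0, hj0, hi0, h⟩
    rw [mem_filter, mem_range] at hi hj
    have hlt : a + i * q < a + j * q := by
      have : i * q < j * q := Nat.mul_lt_mul_of_pos_right hij (by omega)
      omega
    have hcop : a.Coprime q := by
      have hg1 : Nat.gcd a q ∣ a + i * q := dvd_add (Nat.gcd_dvd_left _ _) ((Nat.gcd_dvd_right _ _).mul_left _)
      have hg2 : Nat.gcd a q ∣ a + j * q := dvd_add (Nat.gcd_dvd_left _ _) ((Nat.gcd_dvd_right _ _).mul_left _)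
      rcases (Nat.dvd_prime hi.2).1 hg1 with h | h
      · exact h
      · rw [h] at hg2
        have := (Nat.prime_dvd_prime_iff_eq hi.2 hj.2).1 hg2
        omega
    have haq' : a < q := by
      rcases Nat.lt_or_ge a q with h | h
      · exact h
      · have : a = q := by omega
        rw [this] at hcop
        have := (Nat.coprime_self q).1 hcop
        omega
    unfold Two
    rw [mem_filter, mem_range]
    refine ⟨haq', hcop, a + i * q, a + j * q, hi.2, hj.2, hlt, ?_, ?_, ?_⟩
    · show (a + i * q) % q = a % q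
      exact Nat.add_mul_mod_self_right _ _ _
    · show (a + j * q) % q = a % q
      exact Nat.add_mul_mod_self_right _ _ _
    · have h1 : a + j * q ≤ H * q := by
        calc a + j * q ≤ q + j * q := by omega
          _ = (j + 1) * q := by ring
          _ ≤ H * q := Nat.mul_le_mul_right q hj.1
      have h2 : ((a + j * q : ℕ) : ℝ) ≤ (H : ℝ) * q := by exact_mod_cast h1
      exact h2.trans hHup
  exact_mod_cast card_le_card hsub

/-- for every large modulus, a positive proportion of the reduced classes contain no prime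
up to `(1 + c) φ(q) log q` -/
theorem no_prime : ∃ c : ℝ, 0 < c ∧ ∀ᶠ q : ℕ in atTop, c * Nat.totient q ≤ ((Zed c q).card : ℝ) := by
  classical
  obtain ⟨c0, hc0, h⟩ := twos 1 3 (by norm_num) (by norm_num)
  set c : ℝ := min (c0 / 10) (1 / 8) with hc
  have hc00 : 0 < c := lt_min (by positivity) (by norm_num)
  have hc1 : c ≤ c0 / 10 := min_le_left _ _
  have hc2 : c ≤ 1 / 8 := min_le_right _ _
  obtain ⟨C3, hC3, hrat⟩ := H336V.TotLog.div_totient_le (c / 2) (by positivity)
  have t1 : Tendsto (fun k : ℕ => Real.log k) atTop atTop :=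
    Real.tendsto_log_atTop.comp tendsto_natCast_atTop_atTop
  refine ⟨c, hc00, ?_⟩
  filter_upwards [h, pi_up c hc00, t1.eventually_ge_atTop 1, t1.eventually_ge_atTop (2 * C3 / c),
    eventually_ge_atTop 3] with q hq hpi hL1 hL2 hq3
  set L := Real.log q with hL
  have hL0 : 0 < L := by linarith
  have hq0 : (0 : ℝ) < q := by exact_mod_cast (by omega : 0 < q)
  have hφ0 : (0 : ℝ) < Nat.totient q := by exact_mod_cast Nat.totient_pos.2 (by omega)
  set Φ : ℝ := (Nat.totient q : ℝ) with hΦ
  have hqL : (q : ℝ) ≤ c * (Φ * L) := by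
    have h1 := hrat q (by omega)
    rw [← hL, div_le_iff₀ hφ0] at h1
    rw [div_le_iff₀ hc00] at hL2
    have h2 : (C3 + c / 2 * L) * Φ ≤ (c * L) * Φ := mul_le_mul_of_nonneg_right (by linarith) hφ0.le
    linarith
  have hΦL : 0 < Φ * L := by positivity
  set H : ℕ := ⌈(1 + c) * (Φ * L) / q⌉₊ with hH
  have hHlow : (1 + c) * (Φ * L) ≤ (H : ℝ) * q := by
    have : (1 + c) * (Φ * L) / q ≤ (H : ℝ) := Nat.le_ceil _
    rwa [div_le_iff₀ hq0] at this
  have hHup : (H : ℝ) * q ≤ (1 + 2 * c) * (Φ * L) := by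
    have : (H : ℝ) < (1 + c) * (Φ * L) / q + 1 := Nat.ceil_lt_add_one (by positivity)
    have h1 : (H : ℝ) * q ≤ ((1 + c) * (Φ * L) / q + 1) * q := mul_le_mul_of_nonneg_right this.le hq0.le
    have h2 : ((1 + c) * (Φ * L) / q + 1) * q = (1 + c) * (Φ * L) + q := by field_simp
    linarith
  have hH1 : 1 ≤ H := by
    rcases Nat.eq_zero_or_pos H with h | h
    · rw [h, Nat.cast_zero, zero_mul] at hHlow
      have : 0 < (1 + c) * (Φ * L) := by positivity
      linarith
    · exact h
  have h2 := hq H (by linarith [mul_pos hc00 hΦL]) (by nlinarith)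
  have h3 := hpi H hH1
  have hxL : (H : ℝ) * q / L ≤ (1 + 2 * c) * Φ := by
    rw [div_le_iff₀ hL0]
    linarith
  have h4 : (piN (H * q) : ℝ) ≤ (1 + 5 * c) * Φ := by
    calc (piN (H * q) : ℝ) ≤ (1 + c) * ((H : ℝ) * q / L) := h3
      _ ≤ (1 + c) * ((1 + 2 * c) * Φ) := mul_le_mul_of_nonneg_left hxL (by positivity)
      _ = ((1 + c) * (1 + 2 * c)) * Φ := by ring
      _ ≤ (1 + 5 * c) * Φ := by
          apply mul_le_mul_of_nonneg_right _ hφ0.le
          nlinarith
  set B := (Icc 1 q).filter (fun a => 1 ≤ Np H q a) with hB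
  set A := (Icc 1 q).filter (fun a => 2 ≤ Np H q a) with hA
  have h5 : (B.card : ℝ) + A.card ≤ (piN (H * q) : ℝ) := by
    have e0 : ∑ a ∈ Icc 1 q, (Np H q a : ℝ) = piN (H * q) := by
      have := sum_Np H q
      exact_mod_cast this
    have e1 : B.card + A.card ≤ ∑ a ∈ Icc 1 q, Np H q a := by
      rw [hB, hA, card_eq_sum_ones, card_eq_sum_ones, sum_filter, sum_filter, ← sum_add_distrib]
      apply sum_le_sum
      intro a _
      split_ifs <;> omega
    rw [← e0]
    exact_mod_cast e1
  set Z := Zed c q with hZ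
  have h6 : Nat.totient q ≤ Z.card + B.card := by
    rw [← card_cop q]
    refine (card_le_card ?_).trans (card_union_le _ _)
    intro a ha
    rw [mem_filter, mem_range] at ha
    rw [mem_union]
    by_cases hN : 1 ≤ Np H q a
    · right
      rw [hB, mem_filter, mem_Icc]
      refine ⟨⟨?_, ha.1.le⟩, hN⟩
      rcases Nat.eq_zero_or_pos a with h | h
      · rw [h] at ha
        have := (Nat.coprime_zero_left q).1 ha.2
        omega
      · exact h
    · left
      rw [hZ]
      unfold Zed
      rw [mem_filter, mem_range]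
      refine ⟨ha.1, ha.2, fun p hp hpa => ?_⟩
      by_contra hle
      push Not at hle
      apply hN
      have hpa' : p % q = a := by
        have : p % q = a % q := hpa
        rw [this, Nat.mod_eq_of_lt ha.1]
      have hpe : a + (p / q) * q = p := by
        rw [← hpa', mul_comm]
        exact Nat.mod_add_div p q
      have ha1 : 1 ≤ a := by
        rcases Nat.eq_zero_or_pos a with h | h
        · rw [h] at ha
          have := (Nat.coprime_zero_left q).1 ha.2
          omega
        · exact h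
      have hpH : p ≤ H * q := by
        have : (p : ℝ) ≤ (H : ℝ) * q := hle.trans hHlow
        exact_mod_cast this
      have hlt : p / q < H := by
        by_contra hge
        push Not at hge
        have : H * q ≤ (p / q) * q := Nat.mul_le_mul_right q hge
        omega
      unfold Np
      apply card_pos.2
      exact ⟨p / q, mem_filter.2 ⟨mem_range.2 hlt, by rw [hpe]; exact hp⟩⟩
  have h6' : Φ ≤ (Z.card : ℝ) + B.card := by rw [hΦ]; exact_mod_cast h6
  have h7 : c0 * Φ ≤ (A.card : ℝ) := h2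
  have h8 : 10 * c * Φ ≤ c0 * Φ := mul_le_mul_of_nonneg_right (by linarith) hφ0.le
  have h9 : 0 < c * Φ := by positivity
  linarith

end Pool.Agent.R502.FG
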