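import Pool.Agent.R502.FG.PSide
import Pool.Agent.R502.FG.Avg
import Pool.Agent.H442R2.KF.Bv
import Pool.Agent.H343R2.PhiSum
import Pool.Agent.Cov.PNT

/-! The bounds for the ingredients. -/

set_option autoImplicit false

namespace Pool.Agent.R502.FG
open Finset Filter
open Pool.Agent.H442R2.KF (Er piAP piN)

lemma sum_shift (f : ℕ → ℝ) (n : ℕ) : ∑ k ∈ range n, f (k + 1) = ∑ k ∈ Ioc 0 n, f k := by
  induction n with
  | zero => simp
  | succ n ih => rw [sum_range_succ, ih, sum_Ioc_succ_top (Nat.zero_le n)]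

/-- the row sums of the singular series -/
lemma T_bound (R q H i : ℕ) (hq : 1 ≤ q) (hi : i < H) (E : ℝ) (hE : ∀ m ≤ H, ((q : ℝ) / Nat.totient q) * WW R m ≤ E) :
    |∑ j ∈ range H, SS R (((j : ℤ) - i) * q) - (SS R 0 + ((H : ℝ) - 1) * QQ R q)| ≤ 2 * E := by
  obtain ⟨n, rfl⟩ : ∃ n, H = i + 1 + n := ⟨H - (i + 1), by omega⟩
  rw [sum_range_add]
  have h1 : ∑ j ∈ range (i + 1), SS R (((j : ℤ) - i) * q) = SS R 0 + ∑ k ∈ Ioc 0 i, SS R ((k : ℤ) * q) := by
    rw [← sum_range_reflect]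
    have e : ∀ j ∈ range (i + 1), SS R ((((i + 1 - 1 - j : ℕ) : ℤ) - i) * q) = SS R ((j : ℤ) * q) := by
      intro j hj
      rw [mem_range] at hj
      rw [← SS_neg]
      congr 1
      rw [Nat.add_sub_cancel]
      push_cast [Nat.cast_sub (by omega : j ≤ i)]
      ring
    rw [sum_congr rfl e, sum_range_succ', ← sum_shift (fun k => SS R ((k : ℤ) * q))]
    rw [add_comm]
    simp
  have h2 : ∑ k ∈ range n, SS R ((((i + 1 + k : ℕ) : ℤ) - i) * q) = ∑ k ∈ Ioc 0 n, SS R ((k : ℤ) * q) := by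
    rw [← sum_shift (fun k => SS R ((k : ℤ) * q))]
    apply sum_congr rfl
    intro k _
    congr 1
    push_cast
    ring
  rw [h1, h2]
  have a1 := (avg R q i hq).trans (hE i (by omega))
  have a2 := (avg R q n hq).trans (hE n (by omega))
  have e : SS R 0 + ∑ k ∈ Ioc 0 i, SS R ((k : ℤ) * q) + ∑ k ∈ Ioc 0 n, SS R ((k : ℤ) * q) -
      (SS R 0 + (((i + 1 + n : ℕ) : ℝ) - 1) * QQ R q) =
      (∑ k ∈ Ioc 0 i, SS R ((k : ℤ) * q) - i * QQ R q) + (∑ k ∈ Ioc 0 n, SS R ((k : ℤ) * q) - n * QQ R q) := by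
    push_cast
    ring
  rw [e]
  refine (abs_add_le _ _).trans ?_
  linarith

/-- the bound for the coefficients -/
lemma aa_bound : ∃ C : ℝ, 1 ≤ C ∧ ∀ R d : ℕ, 1 ≤ d → d ≤ R → |aa R d| ≤ C * (1 + Real.log R) ^ 2 := by
  classical
  obtain ⟨C1, hC1, h1⟩ := H336V.TotLog.div_totient_le 1 one_pos
  obtain ⟨C2, hC2, h2⟩ := H343.PhiSum.totient_upper
  refine ⟨(C1 + 1) * (C2 + 1), ?_, fun R d hd hdR => ?_⟩
  · nlinarith
  have hR1 : (1 : ℝ) ≤ R := by exact_mod_cast hd.trans hdR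
  have hL : 0 ≤ Real.log R := Real.log_nonneg hR1
  have hd1 : (1 : ℝ) ≤ d := by exact_mod_cast hd
  have hLd : Real.log d ≤ Real.log R := Real.log_le_log (by linarith) (by exact_mod_cast hdR)
  have hφd : (0 : ℝ) < Nat.totient d := by exact_mod_cast Nat.totient_pos.2 (by omega)
  have h3 : ∑ r ∈ (Sq R).filter (fun r => d ∣ r), 1 / (Nat.totient r : ℝ) ≤
      (1 / (Nat.totient d : ℝ)) * H343.LL 0 R := by
    calc ∑ r ∈ (Sq R).filter (fun r => d ∣ r), 1 / (Nat.totient r : ℝ)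
        ≤ ∑ r ∈ (H343.Mod 0 R).image (fun s => d * s), 1 / (Nat.totient r : ℝ) := by
          apply sum_le_sum_of_subset_of_nonneg
          · intro r hr
            rw [mem_filter, mem_Sq] at hr
            obtain ⟨⟨⟨r1, r2⟩, r3⟩, s, rfl⟩ := hr
            rw [mem_image]
            refine ⟨s, ?_, rfl⟩
            rw [H343.Mod, mem_filter, mem_Ioc]
            have hs0 : 0 < s := Nat.pos_of_ne_zero (by rintro rfl; simp at r1)
            exact ⟨⟨hs0, (Nat.le_mul_of_pos_left s (by omega)).trans r2⟩, r3.squarefree_of_dvd (dvd_mul_left _ _)⟩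
          · intro r _ _; positivity
      _ = ∑ s ∈ H343.Mod 0 R, 1 / (Nat.totient (d * s) : ℝ) := by
          rw [sum_image]
          intro s _ t _ h
          exact Nat.eq_of_mul_eq_mul_left (by omega) h
      _ ≤ ∑ s ∈ H343.Mod 0 R, (1 / (Nat.totient d : ℝ)) * (1 / (Nat.totient s : ℝ)) := by
          apply sum_le_sum
          intro s hs
          rw [H343.Mod, mem_filter, mem_Ioc] at hs
          have a2 : (0 : ℝ) < Nat.totient s := by exact_mod_cast Nat.totient_pos.2 (by omega)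
          rw [one_div_mul_one_div]
          apply one_div_le_one_div_of_le (by positivity)
          exact_mod_cast Nat.totient_super_multiplicative d s
      _ = (1 / (Nat.totient d : ℝ)) * H343.LL 0 R := by rw [← mul_sum]; rfl
  have h4 := h1 d hd
  have h5 := h2 R (hd.trans hdR)
  have h6 : 0 ≤ ∑ r ∈ (Sq R).filter (fun r => d ∣ r), 1 / (Nat.totient r : ℝ) := sum_nonneg fun _ _ => by positivity
  unfold aa
  rw [abs_mul, abs_mul, abs_mu, one_mul, Nat.abs_cast, abs_of_nonneg h6]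
  have hLL : 0 ≤ H343.LL 0 R := by unfold H343.LL; exact sum_nonneg fun _ _ => by positivity
  calc (d : ℝ) * ∑ r ∈ (Sq R).filter (fun r => d ∣ r), 1 / (Nat.totient r : ℝ)
      ≤ d * ((1 / (Nat.totient d : ℝ)) * H343.LL 0 R) := mul_le_mul_of_nonneg_left h3 (by linarith)
    _ = (d / (Nat.totient d : ℝ)) * H343.LL 0 R := by ring
    _ ≤ ((C1 + 1) * (1 + Real.log R)) * ((C2 + 1) * (1 + Real.log R)) := by
        apply mul_le_mul _ _ hLL (by positivity)
        · nlinarith
        · nlinarith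
    _ = (C1 + 1) * (C2 + 1) * (1 + Real.log R) ^ 2 := by ring

lemma SS0_lower (R : ℕ) (hR : 1 ≤ R) : Real.log R ≤ SS R 0 := by
  rw [SS_zero]
  have h := H343.PhiSum.totient_lower R hR
  have e : H343.LL 0 R = ∑ r ∈ Sq R, 1 / (Nat.totient r : ℝ) := by
    unfold H343.LL H343.Mod Sq
    rfl
  rwa [e] at h

/-- the mean value is nearly `q / φ(q)` -/
lemma QQ_lower (δ ε : ℝ) (hδ : 0 < δ) (hε : 0 < ε) : ∀ᶠ q : ℕ in atTop, ∀ R : ℕ, (q : ℝ) ^ δ / 2 ≤ R →
    (1 - ε) * ((q : ℝ) / Nat.totient q) ≤ QQ R q := by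
  classical
  obtain ⟨c, hc, hphi⟩ := H343.phi_bound (1 / 4) (by norm_num)
  obtain ⟨C, hC, hdiv⟩ := H343.div_bound (δ / 4) (by positivity)
  have tc : Tendsto (fun q : ℕ => (q : ℝ)) atTop atTop := tendsto_natCast_atTop_atTop
  have f1 : ∀ᶠ x : ℝ in atTop, 2 * C / (c * ε) ≤ x ^ (δ / 4) := (tendsto_rpow_atTop (by positivity)).eventually_ge_atTop _
  filter_upwards [tc.eventually f1, eventually_ge_atTop 1] with q g1 hq R hR
  have hq0 : (0 : ℝ) < q := by exact_mod_cast hq
  have hR0 : (0 : ℝ) < R := lt_of_lt_of_le (by positivity) hR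
  have hφ : (0 : ℝ) < Nat.totient q := by exact_mod_cast Nat.totient_pos.2 (by omega)
  have hφq : (Nat.totient q : ℝ) ≤ q := by exact_mod_cast Nat.totient_le q
  have h1 : (q : ℝ) / Nat.totient q = QQ R q + ∑ d ∈ (q.divisors.filter Squarefree).filter (fun d => ¬ d ≤ R), (1 : ℝ) / Nat.totient d := by
    rw [H336V.TotLog.div_totient q hq, ← sum_filter_add_sum_filter_not (q.divisors.filter Squarefree) (fun d => d ≤ R)]
    congr 1
    unfold QQ
    apply sum_congr _ (fun _ _ => rfl)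
    ext d
    rw [mem_filter, mem_filter, mem_filter, mem_Sq, Nat.mem_divisors]
    constructor
    · rintro ⟨⟨⟨a1, a2⟩, a3⟩, a4⟩
      exact ⟨⟨⟨Nat.pos_of_dvd_of_pos a1 (by omega), a4⟩, a3⟩, a1⟩
    · rintro ⟨⟨⟨a1, a2⟩, a3⟩, a4⟩
      exact ⟨⟨⟨a4, by omega⟩, a3⟩, a2⟩
  have h2 : ∑ d ∈ (q.divisors.filter Squarefree).filter (fun d => ¬ d ≤ R), (1 : ℝ) / Nat.totient d ≤ ε := by
    calc ∑ d ∈ (q.divisors.filter Squarefree).filter (fun d => ¬ d ≤ R), (1 : ℝ) / Nat.totient d
        ≤ ∑ d ∈ (q.divisors.filter Squarefree).filter (fun d => ¬ d ≤ R), 2 / (c * (q : ℝ) ^ (δ / 2)) := by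
          apply sum_le_sum
          intro d hd
          rw [mem_filter, mem_filter, Nat.mem_divisors] at hd
          have hd1 : 1 ≤ d := Nat.pos_of_dvd_of_pos hd.1.1.1 (by omega)
          have hd0 : (0 : ℝ) < d := by exact_mod_cast hd1
          have h3 : (R : ℝ) ≤ d := by exact_mod_cast (by omega : R ≤ d)
          have h4 := hphi d hd1
          have h5 : (q : ℝ) ^ (δ / 2) / 2 ≤ (d : ℝ) ^ (1 - 1 / 4 : ℝ) := by
            have h6 : (q : ℝ) ^ δ / 2 ≤ d := hR.trans h3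
            have h7 : ((q : ℝ) ^ δ / 2) ^ (1 - 1 / 4 : ℝ) ≤ (d : ℝ) ^ (1 - 1 / 4 : ℝ) :=
              Real.rpow_le_rpow (by positivity) h6 (by norm_num)
            refine le_trans ?_ h7
            rw [Real.div_rpow (by positivity) (by norm_num), ← Real.rpow_mul hq0.le]
            have h8 : (q : ℝ) ^ (δ / 2) ≤ (q : ℝ) ^ (δ * (1 - 1 / 4)) := by
              apply Real.rpow_le_rpow_of_exponent_le (by exact_mod_cast hq)
              linarith
            have h9 : (2 : ℝ) ^ (1 - 1 / 4 : ℝ) ≤ 2 := by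
              calc (2 : ℝ) ^ (1 - 1 / 4 : ℝ) ≤ (2 : ℝ) ^ (1 : ℝ) :=
                    Real.rpow_le_rpow_of_exponent_le (by norm_num) (by norm_num)
                _ = 2 := Real.rpow_one 2
            exact div_le_div₀ (by positivity) h8 (by positivity) h9
          have h10 : c * ((q : ℝ) ^ (δ / 2) / 2) ≤ Nat.totient d := (mul_le_mul_of_nonneg_left h5 hc.le).trans h4
          calc (1 : ℝ) / Nat.totient d ≤ 1 / (c * ((q : ℝ) ^ (δ / 2) / 2)) := one_div_le_one_div_of_le (by positivity) h10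
            _ = 2 / (c * (q : ℝ) ^ (δ / 2)) := by field_simp
      _ ≤ (C * (q : ℝ) ^ (δ / 4)) * (2 / (c * (q : ℝ) ^ (δ / 2))) := by
          rw [sum_const, nsmul_eq_mul]
          apply mul_le_mul_of_nonneg_right _ (by positivity)
          refine le_trans ?_ (hdiv q hq)
          exact_mod_cast card_le_card ((filter_subset _ _).trans (filter_subset _ _))
      _ ≤ ε := by
          have e : (q : ℝ) ^ (δ / 2) = (q : ℝ) ^ (δ / 4) * (q : ℝ) ^ (δ / 4) := by
            rw [← Real.rpow_add hq0]; congr 1; ring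
          have hp : 0 < (q : ℝ) ^ (δ / 4) := by positivity
          rw [e]
          rw [div_le_iff₀ (by positivity)] at g1
          calc (C * (q : ℝ) ^ (δ / 4)) * (2 / (c * ((q : ℝ) ^ (δ / 4) * (q : ℝ) ^ (δ / 4))))
              = 2 * C / (c * (q : ℝ) ^ (δ / 4)) := by field_simp
            _ ≤ ε := by
                rw [div_le_iff₀ (by positivity)]
                linarith
  have h3 : 1 ≤ (q : ℝ) / Nat.totient q := by rwa [le_div_iff₀ hφ, one_mul]
  have h4 : ε ≤ ε * ((q : ℝ) / Nat.totient q) := le_mul_of_one_le_right hε.le h3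
  linarith

lemma piN_eq (x : ℕ) : piN x = Nat.primeCounting x := by
  unfold piN
  rw [Nat.primeCounting, Nat.primeCounting', Nat.count_eq_card_filter_range]
  congr 1
  ext p
  rw [mem_filter, mem_filter, mem_range, mem_Icc]
  constructor
  · rintro ⟨⟨_, h⟩, hp⟩; exact ⟨by omega, hp⟩
  · rintro ⟨h, hp⟩; exact ⟨⟨hp.pos, by omega⟩, hp⟩

lemma piN_mono {x y : ℕ} (h : x ≤ y) : piN x ≤ piN y := by
  rw [piN_eq, piN_eq]
  exact Nat.monotone_primeCounting h

/-- the sum of the numbers of primes -/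
lemma sum_Np (H q : ℕ) : ∑ a ∈ Icc 1 q, (Np H q a : ℝ) = piN (H * q) := by
  classical
  have h1 : ∀ i : ℕ, ((((Icc 1 q).filter (fun a => (a + i * q).Prime)).card : ℕ) : ℝ) = (piN ((i + 1) * q) : ℝ) - piN (i * q) := by
    intro i
    have h2 := PC_eq q i 0 1
    have h3 : PC q i 0 1 = ((Icc 1 q).filter (fun a => (a + i * q).Prime)).card := by
      unfold PC
      simp
    have h4 : ∀ x (k : ℤ), pcnt x 1 k = piN x := by
      intro x k
      unfold pcnt piN
      simp
    rw [h3, h4, h4] at h2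
    have h5 : ((((Icc 1 q).filter (fun a => (a + i * q).Prime)).card + piN (i * q) : ℕ) : ℝ) = (piN ((i + 1) * q) : ℕ) := by
      rw [h2]
    push_cast at h5
    linarith
  have h2 : ∑ a ∈ Icc 1 q, (Np H q a : ℝ) = ∑ i ∈ range H, ((((Icc 1 q).filter (fun a => (a + i * q).Prime)).card : ℕ) : ℝ) := by
    unfold Np
    have e1 : ∀ a ∈ Icc 1 q, ((((range H).filter (fun i => (a + i * q).Prime)).card : ℕ) : ℝ) =
        ∑ i ∈ range H, if (a + i * q).Prime then (1 : ℝ) else 0 := by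
      intro a _
      rw [card_filter]
      push_cast
      rfl
    rw [sum_congr rfl e1, sum_comm]
    apply sum_congr rfl
    intro i _
    rw [card_filter]
    push_cast
    rfl
  rw [h2, sum_congr rfl fun i _ => h1 i, sum_range_succ_sub]
  have h0 : piN (0 * q) = 0 := by
    rw [zero_mul, piN_eq]
    simp
  rw [h0]
  simp
where
  sum_range_succ_sub {H q : ℕ} : ∑ i ∈ range H, ((piN ((i + 1) * q) : ℝ) - piN (i * q)) =
      (piN (H * q) : ℝ) - piN (0 * q) := Finset.sum_range_sub (fun i => (piN (i * q) : ℝ)) H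

end Pool.Agent.R502.FG
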