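import Pool.Agent.R502.FG.Pairs
import Pool.Agent.H442R2.KF.Defs

/-! The correlation of the primes with the approximation. -/

set_option autoImplicit false

namespace Pool.Agent.R502.FG
open Finset
open Pool.Agent.H442R2.KF (Er piAP piN)

/-- the number of primes in the class of `a` -/
def Np (H q a : ℕ) : ℕ := ((range H).filter (fun i => (a + i * q).Prime)).card

/-- the count with a prime and a divisor -/
noncomputable def PC (q i j d : ℕ) : ℕ := ((Icc 1 q).filter (fun a => (a + i * q).Prime ∧ d ∣ a + j * q)).card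

/-- the primes `p ≤ x` with `d ∣ p + k` -/
noncomputable def pcnt (x d : ℕ) (k : ℤ) : ℕ := by
  classical
  exact ((Icc 1 x).filter (fun p : ℕ => p.Prime ∧ (d : ℤ) ∣ (p : ℤ) + k)).card

/-- the residue class -/
noncomputable def rho (k : ℤ) (d : ℕ) : ℕ := if Int.gcd d k = 1 then ((-k) % (d : ℤ)).toNat else 1

lemma rho_cast {k : ℤ} {d : ℕ} (hd : 1 ≤ d) (h : Int.gcd d k = 1) : ((rho k d : ℕ) : ℤ) = (-k) % (d : ℤ) := by
  unfold rho
  rw [if_pos h]
  exact Int.toNat_of_nonneg (Int.emod_nonneg _ (by exact_mod_cast (by omega : d ≠ 0)))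

lemma rho_cop (k : ℤ) (d : ℕ) (hd : 1 ≤ d) : (rho k d).Coprime d := by
  by_cases h : Int.gcd d k = 1
  · have h1 := rho_cast hd h
    have h2 : Int.gcd ((rho k d : ℕ) : ℤ) (d : ℤ) = 1 := by
      rw [h1, Int.gcd_comm, Int.gcd_eq_gcd_emod_aux hd h]
    exact_mod_cast h2
  · unfold rho
    rw [if_neg h]
    exact Nat.coprime_one_left d
where
  Int.gcd_eq_gcd_emod_aux {k : ℤ} {d : ℕ} (hd : 1 ≤ d) (h : Int.gcd d k = 1) :
      Int.gcd (d : ℤ) ((-k) % (d : ℤ)) = 1 := by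
    have h1 : Int.gcd (d : ℤ) ((-k) % (d : ℤ)) ∣ Int.gcd (d : ℤ) k := by
      apply Int.dvd_gcd
      · exact Int.gcd_dvd_left ..
      · have h2 : ((Int.gcd (d : ℤ) ((-k) % (d : ℤ)) : ℕ) : ℤ) ∣ (d : ℤ) := Int.gcd_dvd_left ..
        have h3 : ((Int.gcd (d : ℤ) ((-k) % (d : ℤ)) : ℕ) : ℤ) ∣ (-k) % (d : ℤ) := Int.gcd_dvd_right ..
        have h4 := Int.emod_add_mul_ediv (-k) (d : ℤ)
        have h5 : ((Int.gcd (d : ℤ) ((-k) % (d : ℤ)) : ℕ) : ℤ) ∣ -k := by
          have h6 := dvd_add h3 (h2.mul_right (-k / (d : ℤ)))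
          have h7 : ∀ z : ℤ, (-k) % (d : ℤ) + (d : ℤ) * (-k / (d : ℤ)) = z → ((Int.gcd (d : ℤ) ((-k) % (d : ℤ)) : ℕ) : ℤ) ∣ z := by
            rintro z rfl
            exact h6
          exact h7 _ h4
        exact (dvd_neg).1 h5
    rw [h] at h1
    exact Nat.dvd_one.1 h1

lemma pcnt_eq {x d : ℕ} {k : ℤ} (hd : 1 ≤ d) (h : Int.gcd d k = 1) : pcnt x d k = piAP x d (rho k d) := by
  classical
  unfold pcnt piAP
  congr 1
  apply filter_congr
  intro p _
  have h1 := rho_cast hd h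
  have h2 : (p ≡ rho k d [MOD d]) ↔ (d : ℤ) ∣ (p : ℤ) + k := by
    rw [Nat.modEq_iff_dvd, h1]
    have h4 := Int.emod_add_mul_ediv (-k) (d : ℤ)
    have h5 : (-k) % (d : ℤ) - p = -((p : ℤ) + k) - d * (-k / d) := by linarith
    rw [h5]
    constructor
    · intro h6
      have h7 := dvd_add h6 (dvd_mul_right (d : ℤ) (-k / d))
      rw [sub_add_cancel] at h7
      exact (dvd_neg).1 h7
    · intro h6
      exact dvd_sub ((dvd_neg).2 h6) (dvd_mul_right _ _)
  rw [h2]

lemma PC_eq (q i j d : ℕ) : PC q i j d + pcnt (i * q) d (((j : ℤ) - i) * q) = pcnt ((i + 1) * q) d (((j : ℤ) - i) * q) := by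
  classical
  set k : ℤ := ((j : ℤ) - i) * q with hk
  unfold PC pcnt
  have h1 : (Icc 1 ((i + 1) * q)).filter (fun p : ℕ => p.Prime ∧ (d : ℤ) ∣ (p : ℤ) + k) =
      ((Icc 1 q).filter (fun a => (a + i * q).Prime ∧ d ∣ a + j * q)).image (fun a => a + i * q) ∪
      (Icc 1 (i * q)).filter (fun p : ℕ => p.Prime ∧ (d : ℤ) ∣ (p : ℤ) + k) := by
    ext p
    rw [mem_union, mem_image, mem_filter, mem_filter, mem_Icc, mem_Icc]
    constructor
    · rintro ⟨⟨h1, h2⟩, h3, h4⟩
      rcases Nat.lt_or_ge (i * q) p with h5 | h5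
      · left
        refine ⟨p - i * q, ?_, by omega⟩
        rw [mem_filter, mem_Icc]
        have h6 : (i + 1) * q = i * q + q := by ring
        refine ⟨⟨by omega, by omega⟩, ?_, ?_⟩
        · rwa [Nat.sub_add_cancel h5.le]
        · have h7 : ((p - i * q + j * q : ℕ) : ℤ) = (p : ℤ) + k := by
            push_cast [Nat.cast_sub h5.le]
            rw [hk]; ring
          have h8 : (d : ℤ) ∣ ((p - i * q + j * q : ℕ) : ℤ) := by rw [h7]; exact h4
          exact Int.natCast_dvd_natCast.1 h8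
      · right
        exact ⟨⟨h1, h5⟩, h3, h4⟩
    · rintro (⟨a, ha, rfl⟩ | ⟨⟨h1, h2⟩, h3, h4⟩)
      · rw [mem_filter, mem_Icc] at ha
        obtain ⟨⟨a1, a2⟩, a3, a4⟩ := ha
        have h6 : (i + 1) * q = i * q + q := by ring
        refine ⟨⟨by omega, by omega⟩, a3, ?_⟩
        have h7 : ((a + i * q : ℕ) : ℤ) + k = ((a + j * q : ℕ) : ℤ) := by
          push_cast
          rw [hk]; ring
        rw [h7]
        exact Int.natCast_dvd_natCast.2 a4
      · have h6 : (i + 1) * q = i * q + q := by ring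
        exact ⟨⟨h1, by omega⟩, h3, h4⟩
  rw [h1, card_union_of_disjoint, card_image_of_injective]
  · intro a b hab
    simpa using hab
  · rw [disjoint_left]
    intro p hp hp'
    rw [mem_image] at hp
    obtain ⟨a, ha, rfl⟩ := hp
    rw [mem_filter, mem_Icc] at ha hp'
    omega

lemma PC_noncop {R q i j d : ℕ} (hdR : d ≤ R) (hd : 1 ≤ d) (h : Int.gcd d (((j : ℤ) - i) * q) ≠ 1) : PC q i j d ≤ R := by
  classical
  unfold PC
  have h1 : (Icc 1 q).filter (fun a => (a + i * q).Prime ∧ d ∣ a + j * q) ⊆ Icc 1 R := by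
    intro a ha
    rw [mem_filter, mem_Icc] at ha
    obtain ⟨⟨a1, a2⟩, a3, a4⟩ := ha
    rw [mem_Icc]
    refine ⟨a1, ?_⟩
    set g := Int.gcd d (((j : ℤ) - i) * q) with hg
    have g1 : (g : ℤ) ∣ (d : ℤ) := Int.gcd_dvd_left ..
    have g2 : (g : ℤ) ∣ ((j : ℤ) - i) * q := Int.gcd_dvd_right ..
    have g3 : (g : ℤ) ∣ ((a + j * q : ℕ) : ℤ) := g1.trans (Int.natCast_dvd_natCast.2 a4)
    have g4 : (g : ℤ) ∣ ((a + i * q : ℕ) : ℤ) := by
      have := dvd_sub g3 g2
      have e : ((a + j * q : ℕ) : ℤ) - ((j : ℤ) - i) * q = ((a + i * q : ℕ) : ℤ) := by push_cast; ring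
      rwa [e] at this
    have g5 : g ∣ a + i * q := Int.natCast_dvd_natCast.1 g4
    rcases (Nat.dvd_prime a3).1 g5 with h2 | h2
    · exact absurd h2 h
    · have g6 : g ∣ d := Int.natCast_dvd_natCast.1 g1
      have g7 := Nat.le_of_dvd (by omega) g6
      rw [h2] at g7
      have : a ≤ a + i * q := Nat.le_add_right _ _
      omega
  calc _ ≤ (Icc 1 R).card := card_le_card h1
    _ = R := by rw [Nat.card_Icc]; omega

lemma S1_ij (R q i j : ℕ) (Am B : ℝ) (hAm : ∀ d ∈ Icc 1 R, |aa R d| ≤ Am) (hAm0 : 0 ≤ Am)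
    (h1 : ∑ d ∈ Icc 1 R, |Er (i * q) d (rho (((j : ℤ) - i) * q) d)| ≤ B)
    (h2 : ∑ d ∈ Icc 1 R, |Er ((i + 1) * q) d (rho (((j : ℤ) - i) * q) d)| ≤ B) :
    |∑ d ∈ Icc 1 R, aa R d * (PC q i j d : ℝ) - ((piN ((i + 1) * q) : ℝ) - piN (i * q)) * SS R (((j : ℤ) - i) * q)| ≤
      2 * Am * B + R * absA R := by
  classical
  set k : ℤ := ((j : ℤ) - i) * q with hk
  rw [← I1, mul_sum, ← sum_sub_distrib]
  refine (abs_sum_le_sum_abs _ _).trans ?_
  have h3 : ∀ d ∈ Icc 1 R, |aa R d * (PC q i j d : ℝ) - ((piN ((i + 1) * q) : ℝ) - piN (i * q)) *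
      (aa R d * (if Int.gcd d k = 1 then 1 / (Nat.totient d : ℝ) else 0))| ≤
      Am * |Er (i * q) d (rho k d)| + Am * |Er ((i + 1) * q) d (rho k d)| + R * |aa R d| := by
    intro d hd
    have hd' := mem_Icc.1 hd
    have hA := hAm d hd
    have b1 := abs_nonneg (Er (i * q) d (rho k d))
    have b2 := abs_nonneg (Er ((i + 1) * q) d (rho k d))
    have b3 := abs_nonneg (aa R d)
    by_cases hg : Int.gcd d k = 1
    · rw [if_pos hg]
      have h4 : (PC q i j d : ℝ) = (piAP ((i + 1) * q) d (rho k d) : ℝ) - piAP (i * q) d (rho k d) := by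
        have := PC_eq q i j d
        rw [← hk, pcnt_eq hd'.1 hg, pcnt_eq hd'.1 hg] at this
        have h5 : ((PC q i j d + piAP (i * q) d (rho k d) : ℕ) : ℝ) = (piAP ((i + 1) * q) d (rho k d) : ℕ) := by rw [this]
        push_cast at h5
        linarith
      have h5 : aa R d * (PC q i j d : ℝ) - ((piN ((i + 1) * q) : ℝ) - piN (i * q)) *
          (aa R d * (1 / (Nat.totient d : ℝ))) = aa R d * (Er ((i + 1) * q) d (rho k d) - Er (i * q) d (rho k d)) := by
        rw [h4]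
        unfold Er
        ring
      rw [h5, abs_mul]
      have h6 := abs_sub (Er ((i + 1) * q) d (rho k d)) (Er (i * q) d (rho k d))
      calc |aa R d| * |Er ((i + 1) * q) d (rho k d) - Er (i * q) d (rho k d)|
          ≤ Am * (|Er ((i + 1) * q) d (rho k d)| + |Er (i * q) d (rho k d)|) :=
            mul_le_mul hA h6 (abs_nonneg _) hAm0
        _ ≤ _ := by
            have : 0 ≤ (R : ℝ) * |aa R d| := by positivity
            linarith
    · rw [if_neg hg, mul_zero, mul_zero, sub_zero, abs_mul, Nat.abs_cast]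
      have h4 : (PC q i j d : ℝ) ≤ R := by exact_mod_cast PC_noncop hd'.2 hd'.1 hg
      have h5 : |aa R d| * (PC q i j d : ℝ) ≤ R * |aa R d| := by
        rw [mul_comm]
        exact mul_le_mul_of_nonneg_right h4 b3
      have : 0 ≤ Am * |Er (i * q) d (rho k d)| + Am * |Er ((i + 1) * q) d (rho k d)| := by positivity
      linarith
  refine (sum_le_sum h3).trans ?_
  rw [sum_add_distrib, sum_add_distrib, ← mul_sum, ← mul_sum, ← mul_sum]
  have h4 := mul_le_mul_of_nonneg_left h1 hAm0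
  have h5 := mul_le_mul_of_nonneg_left h2 hAm0
  unfold absA
  linarith

theorem S1 (R H q : ℕ) (Am B : ℝ) (hAm : ∀ d ∈ Icc 1 R, |aa R d| ≤ Am) (hAm0 : 0 ≤ Am)
    (hB : ∀ i ≤ H, ∀ k : ℤ, ∑ d ∈ Icc 1 R, |Er (i * q) d (rho k d)| ≤ B) :
    |∑ a ∈ Icc 1 q, (Np H q a : ℝ) * Psi R H q a -
      ∑ i ∈ range H, ∑ j ∈ range H, ((piN ((i + 1) * q) : ℝ) - piN (i * q)) * SS R (((j : ℤ) - i) * q)| ≤
      (H : ℝ) ^ 2 * (2 * Am * B + R * absA R) := by
  classical
  have h1 : ∑ a ∈ Icc 1 q, (Np H q a : ℝ) * Psi R H q a =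
      ∑ i ∈ range H, ∑ j ∈ range H, ∑ d ∈ Icc 1 R, aa R d * (PC q i j d : ℝ) := by
    have h2 : ∀ a ∈ Icc 1 q, (Np H q a : ℝ) * Psi R H q a =
        ∑ i ∈ range H, ∑ j ∈ range H, ∑ d ∈ Icc 1 R, aa R d * (if (a + i * q).Prime ∧ d ∣ a + j * q then (1 : ℝ) else 0) := by
      intro a _
      unfold Np Psi lam
      rw [card_filter, Nat.cast_sum, sum_mul_sum]
      apply sum_congr rfl
      intro i _
      apply sum_congr rfl
      intro j _
      rw [mul_sum]
      apply sum_congr rfl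
      intro d _
      by_cases a1 : (a + i * q).Prime <;> by_cases a2 : d ∣ a + j * q <;> simp [a1, a2]
    rw [sum_congr rfl h2, sum_comm]
    apply sum_congr rfl
    intro i _
    rw [sum_comm]
    apply sum_congr rfl
    intro j _
    rw [sum_comm]
    apply sum_congr rfl
    intro d _
    rw [← mul_sum]
    unfold PC
    rw [card_filter]
    push_cast
    rfl
  rw [h1, ← sum_sub_distrib]
  refine (abs_sum_le_sum_abs _ _).trans ?_
  calc ∑ i ∈ range H, |∑ j ∈ range H, ∑ d ∈ Icc 1 R, aa R d * (PC q i j d : ℝ) -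
        ∑ j ∈ range H, ((piN ((i + 1) * q) : ℝ) - piN (i * q)) * SS R (((j : ℤ) - i) * q)|
      ≤ ∑ i ∈ range H, (H : ℝ) * (2 * Am * B + R * absA R) := by
        apply sum_le_sum
        intro i hi
        rw [mem_range] at hi
        rw [← sum_sub_distrib]
        refine (abs_sum_le_sum_abs _ _).trans ?_
        refine (sum_le_sum fun j _ => S1_ij R q i j Am B hAm hAm0 (hB i hi.le _) (hB (i + 1) hi _)).trans ?_
        rw [sum_const, card_range, nsmul_eq_mul]
    _ = (H : ℝ) ^ 2 * (2 * Am * B + R * absA R) := by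
        rw [sum_const, card_range, nsmul_eq_mul]; ring

end Pool.Agent.R502.FG
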