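import Pool.Agent.R502.FG.Ram
import Pool.Agent.H373R2.T7.Cnt

/-! The second moment of the approximation over all the classes. -/

set_option autoImplicit false

namespace Pool.Agent.R502.FG
open Finset

/-- the approximation -/
noncomputable def lam (R n : ℕ) : ℝ := ∑ d ∈ Icc 1 R, aa R d * (if d ∣ n then 1 else 0)

/-- its sum over the class of `a` -/
noncomputable def Psi (R H q a : ℕ) : ℝ := ∑ j ∈ range H, lam R (a + j * q)

noncomputable def absA (R : ℕ) : ℝ := ∑ d ∈ Icc 1 R, |aa R d|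

lemma absA_nonneg (R : ℕ) : 0 ≤ absA R := sum_nonneg fun _ _ => abs_nonneg _

lemma lcm_modEq {d e a k : ℕ} : a ≡ k [MOD Nat.lcm d e] ↔ a ≡ k [MOD d] ∧ a ≡ k [MOD e] := by
  rw [Nat.modEq_iff_dvd, Nat.modEq_iff_dvd, Nat.modEq_iff_dvd, Int.natCast_dvd, Int.natCast_dvd, Int.natCast_dvd]
  exact Nat.lcm_dvd_iff

lemma dvd_add_iff_modEq {d a b : ℕ} (hd : 1 ≤ d) : d ∣ a + b ↔ a ≡ b * (d - 1) [MOD d] := by
  have h0 : d ∣ b * (d - 1) + b := by
    refine ⟨b, ?_⟩
    obtain ⟨e, rfl⟩ : ∃ e, d = e + 1 := ⟨d - 1, by omega⟩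
    rw [Nat.add_sub_cancel]
    ring
  constructor
  · intro h
    have h1 : a + b ≡ b * (d - 1) + b [MOD d] :=
      ((Nat.modEq_zero_iff_dvd).2 h).trans ((Nat.modEq_zero_iff_dvd).2 h0).symm
    exact Nat.ModEq.add_right_cancel' b h1
  · intro h
    exact (Nat.modEq_zero_iff_dvd).1 ((h.add_right b).trans ((Nat.modEq_zero_iff_dvd).2 h0))

lemma cnt_pair (q d e i j : ℕ) (hd : 1 ≤ d) (he : 1 ≤ e) :
    |(((Icc 1 q).filter (fun a => d ∣ a + i * q ∧ e ∣ a + j * q)).card : ℝ) -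
      q * (if ((Nat.gcd d e : ℕ) : ℤ) ∣ ((j : ℤ) - i) * q then 1 / ((Nat.lcm d e : ℕ) : ℝ) else 0)| ≤ 1 := by
  classical
  by_cases h : ((Nat.gcd d e : ℕ) : ℤ) ∣ ((j : ℤ) - i) * q
  · rw [if_pos h]
    set α := i * q * (d - 1) with hα
    set β := j * q * (e - 1) with hβ
    have hd0 : (α : ℤ) + i * q = i * q * d := by
      rw [hα]; push_cast [Nat.cast_sub hd]; ring
    have he0 : (β : ℤ) + j * q = j * q * e := by
      rw [hβ]; push_cast [Nat.cast_sub he]; ring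
    have hg : α ≡ β [MOD Nat.gcd d e] := by
      rw [Nat.modEq_iff_dvd]
      have h1 : (β : ℤ) - α = j * q * e - i * q * d - ((j : ℤ) - i) * q := by linarith
      rw [h1]
      apply dvd_sub _ h
      apply dvd_sub
      · exact (Int.natCast_dvd_natCast.2 (Nat.gcd_dvd_right d e)).mul_left _
      · exact (Int.natCast_dvd_natCast.2 (Nat.gcd_dvd_left d e)).mul_left _
    obtain ⟨k, hk1, hk2⟩ := Nat.chineseRemainder' hg
    have hset : (Icc 1 q).filter (fun a => d ∣ a + i * q ∧ e ∣ a + j * q) =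
        (Icc 1 q).filter (fun a => a ≡ k [MOD Nat.lcm d e]) := by
      apply filter_congr
      intro a _
      rw [dvd_add_iff_modEq hd, dvd_add_iff_modEq he, lcm_modEq]
      constructor
      · rintro ⟨h1, h2⟩
        exact ⟨h1.trans hk1.symm, h2.trans hk2.symm⟩
      · rintro ⟨h1, h2⟩
        exact ⟨h1.trans hk1, h2.trans hk2⟩
    rw [hset, mul_one_div]
    exact Pool.Agent.H373R2.T7.count_class q _ k (Nat.lcm_pos (by omega) (by omega))
  · rw [if_neg h, mul_zero, sub_zero]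
    have h0 : (Icc 1 q).filter (fun a => d ∣ a + i * q ∧ e ∣ a + j * q) = ∅ := by
      rw [filter_eq_empty_iff]
      rintro a _ ⟨h1, h2⟩
      apply h
      have h3 : ((Nat.gcd d e : ℕ) : ℤ) ∣ ((a + i * q : ℕ) : ℤ) :=
        Int.natCast_dvd_natCast.2 ((Nat.gcd_dvd_left d e).trans h1)
      have h4 : ((Nat.gcd d e : ℕ) : ℤ) ∣ ((a + j * q : ℕ) : ℤ) :=
        Int.natCast_dvd_natCast.2 ((Nat.gcd_dvd_right d e).trans h2)
      have h5 := dvd_sub h4 h3
      have h6 : ((a + j * q : ℕ) : ℤ) - ((a + i * q : ℕ) : ℤ) = ((j : ℤ) - i) * q := by push_cast; ring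
      rwa [h6] at h5
    rw [h0, card_empty, Nat.cast_zero, abs_zero]
    exact zero_le_one

lemma pair_sum (R q i j : ℕ) :
    |∑ a ∈ Icc 1 q, lam R (a + i * q) * lam R (a + j * q) - q * SS R (((j : ℤ) - i) * q)| ≤ (absA R) ^ 2 := by
  classical
  have h1 : ∑ a ∈ Icc 1 q, lam R (a + i * q) * lam R (a + j * q) =
      ∑ d ∈ Icc 1 R, ∑ e ∈ Icc 1 R, aa R d * aa R e *
        (((Icc 1 q).filter (fun a => d ∣ a + i * q ∧ e ∣ a + j * q)).card : ℝ) := by
    unfold lam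
    have h2 : ∀ a ∈ Icc 1 q, (∑ d ∈ Icc 1 R, aa R d * (if d ∣ a + i * q then (1 : ℝ) else 0)) *
        (∑ d ∈ Icc 1 R, aa R d * (if d ∣ a + j * q then (1 : ℝ) else 0)) =
        ∑ d ∈ Icc 1 R, ∑ e ∈ Icc 1 R, aa R d * aa R e * (if d ∣ a + i * q ∧ e ∣ a + j * q then (1 : ℝ) else 0) := by
      intro a _
      rw [sum_mul_sum]
      apply sum_congr rfl
      intro d _
      apply sum_congr rfl
      intro e _
      by_cases a1 : d ∣ a + i * q <;> by_cases a2 : e ∣ a + j * q <;> simp [a1, a2]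
    rw [sum_congr rfl h2, sum_comm]
    apply sum_congr rfl
    intro d _
    rw [sum_comm]
    apply sum_congr rfl
    intro e _
    rw [← mul_sum, card_filter]
    push_cast
    rfl
  rw [h1, ← I2, mul_sum, ← sum_sub_distrib]
  refine (abs_sum_le_sum_abs _ _).trans ?_
  unfold absA
  rw [sq, sum_mul_sum]
  apply sum_le_sum
  intro d hd
  rw [mul_sum, ← sum_sub_distrib]
  refine (abs_sum_le_sum_abs _ _).trans ?_
  apply sum_le_sum
  intro e he
  rw [mem_Icc] at hd he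
  have h3 := cnt_pair q d e i j hd.1 he.1
  set F : ℝ := (((Icc 1 q).filter (fun a => d ∣ a + i * q ∧ e ∣ a + j * q)).card : ℝ) with hF
  set G : ℝ := (if ((Nat.gcd d e : ℕ) : ℤ) ∣ ((j : ℤ) - i) * q then 1 / ((Nat.lcm d e : ℕ) : ℝ) else 0) with hG
  calc |aa R d * aa R e * F - q * (aa R d * aa R e * G)| = |aa R d| * |aa R e| * |F - q * G| := by
        rw [← abs_mul, ← abs_mul]; congr 1; ring
    _ ≤ |aa R d| * |aa R e| * 1 := mul_le_mul_of_nonneg_left h3 (by positivity)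
    _ = |aa R d| * |aa R e| := mul_one _

theorem S2 (R H q : ℕ) :
    |∑ a ∈ Icc 1 q, (Psi R H q a) ^ 2 - q * ∑ i ∈ range H, ∑ j ∈ range H, SS R (((j : ℤ) - i) * q)| ≤
      (H : ℝ) ^ 2 * (absA R) ^ 2 := by
  have h1 : ∑ a ∈ Icc 1 q, (Psi R H q a) ^ 2 =
      ∑ i ∈ range H, ∑ j ∈ range H, ∑ a ∈ Icc 1 q, lam R (a + i * q) * lam R (a + j * q) := by
    unfold Psi
    rw [sum_congr rfl fun a _ => show (∑ j ∈ range H, lam R (a + j * q)) ^ 2 =
      ∑ i ∈ range H, ∑ j ∈ range H, lam R (a + i * q) * lam R (a + j * q) by rw [sq, sum_mul_sum]]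
    rw [sum_comm]
    apply sum_congr rfl
    intro i _
    rw [sum_comm]
  rw [h1, mul_sum, ← sum_sub_distrib]
  refine (abs_sum_le_sum_abs _ _).trans ?_
  calc ∑ i ∈ range H, |∑ j ∈ range H, ∑ a ∈ Icc 1 q, lam R (a + i * q) * lam R (a + j * q) -
        q * ∑ j ∈ range H, SS R (((j : ℤ) - i) * q)| ≤ ∑ i ∈ range H, (H : ℝ) * (absA R) ^ 2 := by
        apply sum_le_sum
        intro i _
        rw [mul_sum, ← sum_sub_distrib]
        refine (abs_sum_le_sum_abs _ _).trans ?_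
        refine (sum_le_sum fun j _ => pair_sum R q i j).trans ?_
        rw [sum_const, card_range, nsmul_eq_mul]
    _ = (H : ℝ) ^ 2 * (absA R) ^ 2 := by
        rw [sum_const, card_range, nsmul_eq_mul]; ring

end Pool.Agent.R502.FG
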