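import Mathlib

/-! Ramanujan sums of squarefree order and the divisor form of the approximation of the primes. -/

set_option autoImplicit false

namespace Pool.Agent.R502.FG
open Finset

/-- the squarefree numbers up to `R` -/
noncomputable def Sq (R : ℕ) : Finset ℕ := (Icc 1 R).filter Squarefree

lemma mem_Sq {R r : ℕ} : r ∈ Sq R ↔ (1 ≤ r ∧ r ≤ R) ∧ Squarefree r := by
  unfold Sq
  rw [mem_filter, mem_Icc]

/-- `(-1)^ω` -/
noncomputable def mu (d : ℕ) : ℝ := ∏ _p ∈ d.primeFactors, (-1 : ℝ)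

/-- Ramanujan's sum (squarefree `r`) -/
noncomputable def cc (r : ℕ) (k : ℤ) : ℝ := ∏ p ∈ r.primeFactors, (if (p : ℤ) ∣ k then (p : ℝ) - 1 else -1)

lemma mu_sq (d : ℕ) : mu d * mu d = 1 := by
  unfold mu
  rw [← prod_mul_distrib]
  apply prod_eq_one
  intro p _
  norm_num

lemma abs_mu (d : ℕ) : |mu d| = 1 := by
  have h := mu_sq d
  have h2 : |mu d| * |mu d| = 1 := by rw [← abs_mul, h, abs_one]
  have h3 := abs_nonneg (mu d)
  nlinarith

lemma sqf_of_dvd {d r : ℕ} (hr : Squarefree r) (h : d ∣ r) : Squarefree d := hr.squarefree_of_dvd h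

/-- expansion of a product over the primes of a squarefree number -/
lemma sum_div2 {r : ℕ} (hr : Squarefree r) (f g : ℕ → ℝ) :
    ∑ d ∈ r.divisors, (∏ p ∈ d.primeFactors, f p) * ∏ p ∈ r.primeFactors \ d.primeFactors, g p =
      ∏ p ∈ r.primeFactors, (f p + g p) := by
  classical
  rw [prod_add]
  symm
  have hr0 : r ≠ 0 := hr.ne_zero
  have hpr : ∀ t ⊆ r.primeFactors, ∀ p ∈ t, p.Prime := fun t ht p hp => Nat.prime_of_mem_primeFactors (ht hp)
  refine sum_nbij' (fun t => ∏ p ∈ t, p) (fun d => d.primeFactors) ?_ ?_ ?_ ?_ ?_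
  · intro t ht
    rw [mem_powerset] at ht
    rw [Nat.mem_divisors]
    refine ⟨?_, hr0⟩
    rw [← Nat.prod_primeFactors_of_squarefree hr]
    exact prod_dvd_prod_of_subset _ _ _ ht
  · intro d hd
    rw [Nat.mem_divisors] at hd
    rw [mem_powerset]
    exact Nat.primeFactors_mono hd.1 hd.2
  · intro t ht
    rw [mem_powerset] at ht
    exact Nat.primeFactors_prod (hpr t ht)
  · intro d hd
    rw [Nat.mem_divisors] at hd
    exact Nat.prod_primeFactors_of_squarefree (sqf_of_dvd hr hd.1)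
  · intro t ht
    rw [mem_powerset] at ht
    rw [Nat.primeFactors_prod (hpr t ht)]

lemma sum_div {r : ℕ} (hr : Squarefree r) (f : ℕ → ℝ) :
    ∑ d ∈ r.divisors, ∏ p ∈ d.primeFactors, f p = ∏ p ∈ r.primeFactors, (1 + f p) := by
  have h := sum_div2 hr f (fun _ => 1)
  simp only [prod_const_one, mul_one] at h
  rw [h]
  exact prod_congr rfl fun p _ => add_comm _ _

/-- `∑_{u ∣ d ∣ r} μ(d)` -/
lemma sum_mu {r u : ℕ} (hr : Squarefree r) (hu : u ∣ r) :
    ∑ d ∈ r.divisors.filter (fun d => u ∣ d), mu d = if u = r then mu r else 0 := by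
  classical
  have h := sum_div2 hr (fun _ => (-1 : ℝ)) (fun p => if p ∣ u then 0 else 1)
  have hu0 : u ≠ 0 := ne_zero_of_dvd_ne_zero hr.ne_zero hu
  have e1 : ∑ d ∈ r.divisors.filter (fun d => u ∣ d), mu d =
      ∑ d ∈ r.divisors, (∏ _p ∈ d.primeFactors, (-1 : ℝ)) *
        ∏ p ∈ r.primeFactors \ d.primeFactors, (if p ∣ u then (0 : ℝ) else 1) := by
    rw [sum_filter]
    apply sum_congr rfl
    intro d hd
    rw [Nat.mem_divisors] at hd
    have hd0 : d ≠ 0 := ne_zero_of_dvd_ne_zero hd.2 hd.1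
    by_cases hud : u ∣ d
    · rw [if_pos hud]
      have : ∏ p ∈ r.primeFactors \ d.primeFactors, (if p ∣ u then (0 : ℝ) else 1) = 1 := by
        apply prod_eq_one
        intro p hp
        rw [mem_sdiff] at hp
        rw [if_neg]
        intro hpu
        exact hp.2 (Nat.mem_primeFactors.2 ⟨Nat.prime_of_mem_primeFactors hp.1, hpu.trans hud, hd0⟩)
      rw [this, mul_one]
      rfl
    · rw [if_neg hud]
      have : ∏ p ∈ r.primeFactors \ d.primeFactors, (if p ∣ u then (0 : ℝ) else 1) = 0 := by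
        -- some prime of `u` does not divide `d`
        have hex : ∃ p ∈ u.primeFactors, p ∉ d.primeFactors := by
          by_contra hcon
          push Not at hcon
          apply hud
          rw [← Nat.prod_primeFactors_of_squarefree (sqf_of_dvd hr hu),
            ← Nat.prod_primeFactors_of_squarefree (sqf_of_dvd hr hd.1)]
          exact prod_dvd_prod_of_subset _ _ _ hcon
        obtain ⟨p, hp1, hp2⟩ := hex
        apply prod_eq_zero (i := p)
        · rw [mem_sdiff]
          exact ⟨Nat.primeFactors_mono hu hr.ne_zero hp1, hp2⟩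
        · rw [if_pos (Nat.dvd_of_mem_primeFactors hp1)]
      rw [this, mul_zero]
  rw [e1, h]
  by_cases hur : u = r
  · rw [if_pos hur, hur]
    unfold mu
    apply prod_congr rfl
    intro p hp
    rw [if_pos (Nat.dvd_of_mem_primeFactors hp), add_zero]
  · rw [if_neg hur]
    have hex : ∃ p ∈ r.primeFactors, ¬ p ∣ u := by
      by_contra hcon
      push Not at hcon
      apply hur
      apply Nat.dvd_antisymm hu
      rw [← Nat.prod_primeFactors_of_squarefree hr, ← Nat.prod_primeFactors_of_squarefree (sqf_of_dvd hr hu)]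
      apply prod_dvd_prod_of_subset
      intro p hp
      exact Nat.mem_primeFactors.2 ⟨Nat.prime_of_mem_primeFactors hp, hcon p hp, hu0⟩
    obtain ⟨p, hp1, hp2⟩ := hex
    apply prod_eq_zero hp1
    rw [if_neg hp2]
    norm_num

/-- `∑_{u ∣ m} c_u(k) = m 1_{m ∣ k}` -/
lemma sum_cc {m : ℕ} (hm : Squarefree m) (k : ℤ) :
    ∑ u ∈ m.divisors, cc u k = if (m : ℤ) ∣ k then (m : ℝ) else 0 := by
  classical
  unfold cc
  rw [sum_div hm]
  have e : ∀ p ∈ m.primeFactors, (1 + (if (p : ℤ) ∣ k then (p : ℝ) - 1 else -1)) =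
      if (p : ℤ) ∣ k then (p : ℝ) else 0 := by
    intro p _
    split_ifs <;> ring
  rw [prod_congr rfl e]
  by_cases h : (m : ℤ) ∣ k
  · rw [if_pos h]
    have e2 : ∀ p ∈ m.primeFactors, (if (p : ℤ) ∣ k then (p : ℝ) else 0) = (p : ℝ) := by
      intro p hp
      rw [if_pos]
      exact (Int.natCast_dvd_natCast.2 (Nat.dvd_of_mem_primeFactors hp)).trans h
    rw [prod_congr rfl e2, ← Nat.cast_prod, Nat.prod_primeFactors_of_squarefree hm]
  · rw [if_neg h]
    have hex : ∃ p ∈ m.primeFactors, ¬ (p : ℤ) ∣ k := by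
      by_contra hcon
      push Not at hcon
      apply h
      have h2 : m ∣ k.natAbs := by
        rw [← Nat.prod_primeFactors_of_squarefree hm]
        apply Finset.prod_primes_dvd
        · intro p hp
          exact (Nat.prime_of_mem_primeFactors hp).prime
        · intro p hp
          exact Int.natCast_dvd.1 (hcon p hp)
      exact Int.natCast_dvd.2 h2
    obtain ⟨p, hp1, hp2⟩ := hex
    apply prod_eq_zero hp1
    rw [if_neg hp2]

lemma tot_prod {r : ℕ} (hr : Squarefree r) : (Nat.totient r : ℝ) = ∏ p ∈ r.primeFactors, ((p : ℝ) - 1) := by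
  have h := Nat.totient_mul_prod_primeFactors r
  rw [Nat.prod_primeFactors_of_squarefree hr, mul_comm] at h
  have h2 := Nat.eq_of_mul_eq_mul_left (Nat.pos_of_ne_zero hr.ne_zero) h
  rw [h2]
  push_cast
  apply prod_congr rfl
  intro p hp
  rw [Nat.cast_sub (Nat.prime_of_mem_primeFactors hp).one_le, Nat.cast_one]

lemma cc_zero {r : ℕ} (hr : Squarefree r) : cc r 0 = Nat.totient r := by
  rw [tot_prod hr]
  unfold cc
  apply prod_congr rfl
  intro p _
  rw [if_pos (dvd_zero _)]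

lemma cc_one (k : ℤ) : cc 1 k = 1 := by
  unfold cc
  simp

lemma cc_neg (r : ℕ) (k : ℤ) : cc r (-k) = cc r k := by
  unfold cc
  apply prod_congr rfl
  intro p _
  simp only [dvd_neg]

/-- the coefficients -/
noncomputable def aa (R d : ℕ) : ℝ := mu d * d * ∑ r ∈ (Sq R).filter (fun r => d ∣ r), 1 / (Nat.totient r : ℝ)

/-- the truncated singular series -/
noncomputable def SS (R : ℕ) (k : ℤ) : ℝ := ∑ r ∈ Sq R, cc r k / (Nat.totient r : ℝ) ^ 2

lemma SS_neg (R : ℕ) (k : ℤ) : SS R (-k) = SS R k := by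
  unfold SS
  simp only [cc_neg]

lemma SS_zero (R : ℕ) : SS R 0 = ∑ r ∈ Sq R, 1 / (Nat.totient r : ℝ) := by
  unfold SS
  apply sum_congr rfl
  intro r hr
  rw [mem_Sq] at hr
  rw [cc_zero hr.2]
  have : (0 : ℝ) < Nat.totient r := by exact_mod_cast Nat.totient_pos.2 (by omega)
  field_simp

/-- swapping the sums -/
lemma sum_aa (R : ℕ) (F : ℕ → ℝ) :
    ∑ d ∈ Icc 1 R, aa R d * F d =
      ∑ r ∈ Sq R, (1 / (Nat.totient r : ℝ)) * ∑ d ∈ r.divisors, mu d * d * F d := by
  classical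
  have h1 : ∀ d ∈ Icc 1 R, aa R d * F d =
      ∑ r ∈ Sq R, if d ∣ r then (1 / (Nat.totient r : ℝ)) * (mu d * d * F d) else 0 := by
    intro d _
    unfold aa
    rw [← sum_filter, mul_sum, sum_mul]
    apply sum_congr rfl
    intro r _
    ring
  rw [sum_congr rfl h1, sum_comm]
  apply sum_congr rfl
  intro r hr
  rw [mem_Sq] at hr
  rw [← sum_filter, mul_sum]
  apply sum_congr _ (fun _ _ => rfl)
  ext d
  rw [mem_filter, mem_Icc, Nat.mem_divisors]
  constructor
  · rintro ⟨_, h⟩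
    exact ⟨h, by omega⟩
  · rintro ⟨h, _⟩
    have h1 := Nat.pos_of_dvd_of_pos h (by omega)
    have h2 := Nat.le_of_dvd (by omega) h
    exact ⟨⟨h1, by omega⟩, h⟩

/-- the prime side identity -/
lemma I1 (R : ℕ) (k : ℤ) :
    ∑ d ∈ Icc 1 R, aa R d * (if Int.gcd d k = 1 then 1 / (Nat.totient d : ℝ) else 0) = SS R k := by
  classical
  rw [sum_aa]
  unfold SS
  apply sum_congr rfl
  intro r hr
  rw [mem_Sq] at hr
  have hr0 : (0 : ℝ) < Nat.totient r := by exact_mod_cast Nat.totient_pos.2 (by omega)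
  have h1 : ∀ d ∈ r.divisors, mu d * d * (if Int.gcd d k = 1 then 1 / (Nat.totient d : ℝ) else 0) =
      ∏ p ∈ d.primeFactors, (if (p : ℤ) ∣ k then 0 else -((p : ℝ) / ((p : ℝ) - 1))) := by
    intro d hd
    rw [Nat.mem_divisors] at hd
    have hds := sqf_of_dvd hr.2 hd.1
    have hd0 : d ≠ 0 := hds.ne_zero
    by_cases hg : Int.gcd d k = 1
    · rw [if_pos hg]
      have h2 : ∀ p ∈ d.primeFactors, (if (p : ℤ) ∣ k then (0 : ℝ) else -((p : ℝ) / ((p : ℝ) - 1))) =
          (-1) * ((p : ℝ) / ((p : ℝ) - 1)) := by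
        intro p hp
        rw [if_neg]
        · ring
        · intro hpk
          have h3 : (p : ℤ) ∣ (Int.gcd d k : ℤ) :=
            Int.dvd_coe_gcd (Int.natCast_dvd_natCast.2 (Nat.dvd_of_mem_primeFactors hp)) hpk
          rw [hg] at h3
          have h4 : p ∣ 1 := by exact_mod_cast h3
          exact (Nat.prime_of_mem_primeFactors hp).one_lt.ne' (Nat.dvd_one.1 h4)
      rw [prod_congr rfl h2, prod_mul_distrib, prod_div_distrib, tot_prod hds]
      have h3 : (∏ p ∈ d.primeFactors, (p : ℝ)) = d := by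
        rw [← Nat.cast_prod, Nat.prod_primeFactors_of_squarefree hds]
      rw [h3]
      unfold mu
      ring
    · rw [if_neg hg, mul_zero]
      symm
      have hex : ∃ p : ℕ, p.Prime ∧ p ∣ Int.gcd d k := Nat.exists_prime_and_dvd hg
      obtain ⟨p, hp, hpg⟩ := hex
      have hpd : p ∣ d := by
        have h2 : (p : ℤ) ∣ d := (Int.natCast_dvd_natCast.2 hpg).trans (Int.gcd_dvd_left ..)
        exact_mod_cast h2
      have hpk : (p : ℤ) ∣ k := (Int.natCast_dvd_natCast.2 hpg).trans (Int.gcd_dvd_right ..)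
      apply prod_eq_zero (Nat.mem_primeFactors.2 ⟨hp, hpd, hd0⟩)
      rw [if_pos hpk]
  rw [sum_congr rfl h1, sum_div hr.2]
  have h2 : ∏ p ∈ r.primeFactors, (1 + (if (p : ℤ) ∣ k then (0 : ℝ) else -((p : ℝ) / ((p : ℝ) - 1)))) =
      cc r k / Nat.totient r := by
    rw [tot_prod hr.2]
    unfold cc
    rw [← prod_div_distrib]
    apply prod_congr rfl
    intro p hp
    have hp1 : (1 : ℝ) < p := by exact_mod_cast (Nat.prime_of_mem_primeFactors hp).one_lt
    have hp2 : (p : ℝ) - 1 ≠ 0 := by linarith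
    split_ifs
    · field_simp
      ring
    · field_simp
      ring
  rw [h2]
  field_simp

/-- the diagonalization -/
lemma FF {r s : ℕ} (hr : Squarefree r) (hs : Squarefree s) (k : ℤ) :
    ∑ d ∈ r.divisors, ∑ e ∈ s.divisors, mu d * mu e *
      (if ((Nat.gcd d e : ℕ) : ℤ) ∣ k then ((Nat.gcd d e : ℕ) : ℝ) else 0) = if r = s then cc r k else 0 := by
  classical
  have h1 : ∀ d ∈ r.divisors, ∀ e ∈ s.divisors, mu d * mu e *
      (if ((Nat.gcd d e : ℕ) : ℤ) ∣ k then ((Nat.gcd d e : ℕ) : ℝ) else 0) =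
      ∑ u ∈ r.divisors, if u ∣ s then (cc u k * ((if u ∣ d then mu d else 0) * (if u ∣ e then mu e else 0))) else 0 := by
    intro d hd e he
    rw [Nat.mem_divisors] at hd he
    have hds := sqf_of_dvd hr hd.1
    rw [← sum_cc (hds.squarefree_of_dvd (Nat.gcd_dvd_left d e)), mul_sum]
    have hsub : (Nat.gcd d e).divisors = r.divisors.filter (fun u => u ∣ s ∧ u ∣ d ∧ u ∣ e) := by
      ext u
      rw [mem_filter, Nat.mem_divisors, Nat.mem_divisors]
      constructor
      · rintro ⟨h, _⟩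
        have h2 := (Nat.dvd_gcd_iff.1 h)
        exact ⟨⟨h2.1.trans hd.1, hd.2⟩, h2.2.trans he.1, h2.1, h2.2⟩
      · rintro ⟨_, _, h2, h3⟩
        exact ⟨Nat.dvd_gcd h2 h3, Nat.gcd_ne_zero_left hds.ne_zero⟩
    rw [hsub, sum_filter]
    apply sum_congr rfl
    intro u _
    by_cases a1 : u ∣ s <;> by_cases a2 : u ∣ d <;> by_cases a3 : u ∣ e <;> simp [a1, a2, a3]
    ring
  rw [sum_congr rfl fun d hd => sum_congr rfl fun e he => h1 d hd e he]
  have h2 : ∑ d ∈ r.divisors, ∑ e ∈ s.divisors, ∑ u ∈ r.divisors,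
      (if u ∣ s then (cc u k * ((if u ∣ d then mu d else 0) * (if u ∣ e then mu e else 0))) else 0) =
      ∑ u ∈ r.divisors, if u ∣ s then cc u k * ((if u = r then mu r else 0) * (if u = s then mu s else 0)) else 0 := by
    rw [sum_congr rfl fun d _ => sum_comm]
    rw [sum_comm]
    apply sum_congr rfl
    intro u hu
    rw [Nat.mem_divisors] at hu
    by_cases hus : u ∣ s
    · simp only [if_pos hus]
      rw [← sum_mu hr hu.1, ← sum_mu hs hus, sum_filter, sum_filter, sum_mul_sum, mul_sum]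
      apply sum_congr rfl
      intro d _
      rw [mul_sum]
    · simp only [if_neg hus, sum_const_zero]
  rw [h2]
  by_cases hrs : r = s
  · subst hrs
    rw [if_pos rfl, sum_eq_single r]
    · rw [if_pos (dvd_refl r), if_pos rfl, mu_sq, mul_one]
    · intro u _ hur
      rw [if_neg hur]
      simp
    · intro h
      exact absurd (Nat.mem_divisors.2 ⟨dvd_refl r, hr.ne_zero⟩) h
  · rw [if_neg hrs]
    apply sum_eq_zero
    intro u _
    by_cases h1 : u = r
    · rw [if_neg (fun h => hrs (h1.symm.trans h) : ¬ u = s)]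
      simp
    · rw [if_neg h1]
      simp

/-- the pair identity -/
lemma I2 (R : ℕ) (k : ℤ) :
    ∑ d ∈ Icc 1 R, ∑ e ∈ Icc 1 R, aa R d * aa R e *
      (if ((Nat.gcd d e : ℕ) : ℤ) ∣ k then 1 / ((Nat.lcm d e : ℕ) : ℝ) else 0) = SS R k := by
  classical
  have h1 : ∀ d ∈ Icc 1 R, ∑ e ∈ Icc 1 R, aa R d * aa R e *
      (if ((Nat.gcd d e : ℕ) : ℤ) ∣ k then 1 / ((Nat.lcm d e : ℕ) : ℝ) else 0) =
      aa R d * ∑ s ∈ Sq R, (1 / (Nat.totient s : ℝ)) * ∑ e ∈ s.divisors, mu e * e *
        (if ((Nat.gcd d e : ℕ) : ℤ) ∣ k then 1 / ((Nat.lcm d e : ℕ) : ℝ) else 0) := by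
    intro d _
    rw [← sum_aa, mul_sum]
    apply sum_congr rfl
    intro e _
    ring
  rw [sum_congr rfl h1, sum_aa]
  unfold SS
  apply sum_congr rfl
  intro r hr
  have hr' := mem_Sq.1 hr
  have hφ : (0 : ℝ) < Nat.totient r := by exact_mod_cast Nat.totient_pos.2 (by omega)
  have h2 : ∑ d ∈ r.divisors, mu d * d * ∑ s ∈ Sq R, (1 / (Nat.totient s : ℝ)) * ∑ e ∈ s.divisors, mu e * e *
        (if ((Nat.gcd d e : ℕ) : ℤ) ∣ k then 1 / ((Nat.lcm d e : ℕ) : ℝ) else 0) =
      ∑ s ∈ Sq R, (1 / (Nat.totient s : ℝ)) * ∑ d ∈ r.divisors, ∑ e ∈ s.divisors, mu d * mu e *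
      (if ((Nat.gcd d e : ℕ) : ℤ) ∣ k then ((Nat.gcd d e : ℕ) : ℝ) else 0) := by
    have h3 : ∀ d ∈ r.divisors, mu d * d * ∑ s ∈ Sq R, (1 / (Nat.totient s : ℝ)) * ∑ e ∈ s.divisors, mu e * e *
        (if ((Nat.gcd d e : ℕ) : ℤ) ∣ k then 1 / ((Nat.lcm d e : ℕ) : ℝ) else 0) =
        ∑ s ∈ Sq R, (1 / (Nat.totient s : ℝ)) * ∑ e ∈ s.divisors, mu d * mu e *
      (if ((Nat.gcd d e : ℕ) : ℤ) ∣ k then ((Nat.gcd d e : ℕ) : ℝ) else 0) := by
      intro d hd
      rw [Nat.mem_divisors] at hd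
      have hd0 : d ≠ 0 := ne_zero_of_dvd_ne_zero hd.2 hd.1
      rw [mul_sum]
      apply sum_congr rfl
      intro s hs
      have hs' := mem_Sq.1 hs
      rw [mul_left_comm]
      congr 1
      rw [mul_sum]
      apply sum_congr rfl
      intro e he
      rw [Nat.mem_divisors] at he
      have he0 : e ≠ 0 := ne_zero_of_dvd_ne_zero he.2 he.1
      split_ifs
      · have h4 : (Nat.gcd d e : ℝ) * (Nat.lcm d e : ℝ) = d * e := by
          exact_mod_cast Nat.gcd_mul_lcm d e
        have h5 : ((Nat.lcm d e : ℕ) : ℝ) ≠ 0 := by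
          exact_mod_cast (Nat.lcm_ne_zero hd0 he0)
        have h6 : (d : ℝ) * e / (Nat.lcm d e : ℕ) = (Nat.gcd d e : ℕ) := by
          rw [div_eq_iff h5]
          exact h4.symm
        calc mu d * d * (mu e * e * (1 / ((Nat.lcm d e : ℕ) : ℝ))) =
            mu d * mu e * ((d : ℝ) * e / (Nat.lcm d e : ℕ)) := by ring
          _ = mu d * mu e * (Nat.gcd d e : ℕ) := by rw [h6]
      · ring
    rw [sum_congr rfl h3, sum_comm]
    apply sum_congr rfl
    intro s _
    rw [mul_sum]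
  rw [h2, sum_eq_single r]
  · rw [FF hr'.2 hr'.2, if_pos rfl]
    field_simp
  · intro s hs hsr
    rw [FF hr'.2 (mem_Sq.1 hs).2, if_neg (Ne.symm hsr), mul_zero]
  · intro h
    exact absurd hr h

/-- the value at the coefficient `1` -/
lemma aa_one (R : ℕ) : aa R 1 = ∑ r ∈ Sq R, 1 / (Nat.totient r : ℝ) := by
  unfold aa mu
  simp

end Pool.Agent.R502.FG
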