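import Pool.Agent.R502.FG.Mid

/-! The lower bound for the second moment of the number of primes in the classes of every modulus. -/

set_option autoImplicit false
set_option maxHeartbeats 4000000

namespace Pool.Agent.R502.FG
open Finset Filter
open Pool.Agent.H442R2.KF (Er piAP piN)

/-- powers of logarithms are small -/
lemma ev_log (K c : ℝ) (n : ℕ) (hc : 0 < c) (hK : 0 ≤ K) : ∀ᶠ q : ℕ in atTop, K * Real.log q ^ n ≤ (q : ℝ) ^ c := by
  have h1 := (isLittleO_pow_exp_pos_mul_atTop n hc).def (show (0 : ℝ) < 1 / (K + 1) by positivity)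
  have t1 : Tendsto (fun k : ℕ => Real.log k) atTop atTop :=
    Real.tendsto_log_atTop.comp tendsto_natCast_atTop_atTop
  filter_upwards [t1.eventually h1, t1.eventually_ge_atTop 1, eventually_ge_atTop 1] with k hk hL hk1
  set L := Real.log k with hL'
  have hk0 : (0 : ℝ) < k := by exact_mod_cast hk1
  rw [Real.norm_eq_abs, Real.norm_eq_abs, abs_of_nonneg (by positivity), abs_of_pos (Real.exp_pos _),
    div_mul_eq_mul_div, one_mul, le_div_iff₀ (by positivity)] at hk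
  have h2 : (k : ℝ) ^ c = Real.exp (c * L) := by
    rw [Real.rpow_def_of_pos hk0, ← hL', mul_comm]
  rw [h2]
  have h3 : 0 ≤ L ^ n := by positivity
  nlinarith

lemma assemble {V X Y PI M E2 E1 Ea L x δ ε ε₁ u Λ : ℝ} (hL : 0 < L) (hx : 0 ≤ x) (hε₁ : 0 < ε₁)
    (hε₁2 : 2 * ε₁ ≤ δ) (hδ : δ ≤ 1 / 2) (hε : ε₁ * (9 + 3 * Λ) ≤ ε) (hu0 : 0 ≤ u) (huΛ : u ≤ Λ)
    (h0 : 2 / L * X - 1 / L ^ 2 * Y ≤ V) (hX : PI * (M - E2) - E1 ≤ X) (hY : Y ≤ x * (M + E2) + Ea)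
    (hPI : (1 - ε₁) * (x / L) ≤ PI) (hE2 : E2 ≤ ε₁ * L) (hE1 : E1 ≤ ε₁ * x) (hEa : Ea ≤ ε₁ * (x * L))
    (hM0 : 0 ≤ M - E2) (hM : (δ - ε₁) * L + (1 - ε₁) * ((u - ε₁) * L) ≤ M) :
    x / L * (u + δ - ε) ≤ V := by
  have h1 : (1 - ε₁) * (x / L) * (M - E2) - E1 ≤ X := by
    have := mul_le_mul_of_nonneg_right hPI hM0
    linarith
  have h2 : 2 / L * ((1 - ε₁) * (x / L) * (M - E2) - ε₁ * x) ≤ 2 / L * X := by
    apply mul_le_mul_of_nonneg_left _ (by positivity)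
    linarith
  have h3 : 1 / L ^ 2 * Y ≤ 1 / L ^ 2 * (x * (M + E2) + ε₁ * (x * L)) := by
    apply mul_le_mul_of_nonneg_left _ (by positivity)
    linarith
  have h4 : x / L * (((1 - 2 * ε₁) * M - 3 * (ε₁ * L)) / L - 3 * ε₁) ≤ V := by
    have e1 : 2 / L * ((1 - ε₁) * (x / L) * (M - E2) - ε₁ * x) - 1 / L ^ 2 * (x * (M + E2) + ε₁ * (x * L)) =
        x / L * (((1 - 2 * ε₁) * M - (3 - 2 * ε₁) * E2) / L - 3 * ε₁) := by
      field_simp
      ring
    have h5 : x / L * (((1 - 2 * ε₁) * M - 3 * (ε₁ * L)) / L - 3 * ε₁) ≤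
        x / L * (((1 - 2 * ε₁) * M - (3 - 2 * ε₁) * E2) / L - 3 * ε₁) := by
      apply mul_le_mul_of_nonneg_left _ (by positivity)
      apply sub_le_sub_right
      apply div_le_div_of_nonneg_right _ hL.le
      have h6 : (3 - 2 * ε₁) * E2 ≤ (3 - 2 * ε₁) * (ε₁ * L) := mul_le_mul_of_nonneg_left hE2 (by linarith)
      have h7 : 0 ≤ 2 * ε₁ * (ε₁ * L) := by positivity
      linarith
    linarith
  refine le_trans ?_ h4
  apply mul_le_mul_of_nonneg_left _ (by positivity)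
  have h5 : (δ - ε₁) + (1 - ε₁) * (u - ε₁) ≤ M / L := by
    rw [le_div_iff₀ hL]
    linarith
  have h6 : ((1 - 2 * ε₁) * M - 3 * (ε₁ * L)) / L = (1 - 2 * ε₁) * (M / L) - 3 * ε₁ := by
    field_simp
  rw [h6]
  have h7 : (1 - 2 * ε₁) * ((δ - ε₁) + (1 - ε₁) * (u - ε₁)) ≤ (1 - 2 * ε₁) * (M / L) :=
    mul_le_mul_of_nonneg_left h5 (by linarith)
  have h8 : ε₁ * u ≤ ε₁ * Λ := mul_le_mul_of_nonneg_left huΛ hε₁.le
  have h9 : ε₁ * δ ≤ ε₁ * (1 / 2) := mul_le_mul_of_nonneg_left hδ hε₁.le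
  have h10 : 0 ≤ ε₁ * ε₁ := by positivity
  have h11 : 0 ≤ ε₁ * ε₁ * u := by positivity
  have h12 : ε₁ * ε₁ * ε₁ ≤ ε₁ * ε₁ := by
    have : ε₁ ≤ 1 := by linarith
    nlinarith
  nlinarith

theorem second (δ ε Λ : ℝ) (hδ : 0 < δ) (hδ2 : δ < 1 / 2) (hε : 0 < ε) (hΛ : 0 < Λ) : ∀ᶠ q : ℕ in atTop,
    ∀ H : ℕ, 1 ≤ H → (H : ℝ) * q ≤ Λ * (Nat.totient q * Real.log q) →
    ((H : ℝ) * q) / Real.log q * (((H : ℝ) * q) / (Nat.totient q * Real.log q) + δ - ε) ≤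
      ∑ a ∈ Icc 1 q, (Np H q a : ℝ) ^ 2 := by
  classical
  set ε₁ : ℝ := min (δ / 4) (ε / (9 + 3 * Λ)) with hε₁
  have hε₁0 : 0 < ε₁ := lt_min (by positivity) (by positivity)
  have hε₁δ : 4 * ε₁ ≤ δ := by
    have : ε₁ ≤ δ / 4 := min_le_left _ _
    linarith
  have hε₁ε : ε₁ * (9 + 3 * Λ) ≤ ε := by
    have : ε₁ ≤ ε / (9 + 3 * Λ) := min_le_right _ _
    rwa [le_div_iff₀ (by positivity)] at this
  obtain ⟨CW, hCW, hWW⟩ := WW_le
  obtain ⟨CA, hCA, hAA⟩ := aa_bound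
  obtain ⟨CB, hCB, hBV⟩ := Pool.Agent.H442R2.KF.bv δ hδ2 5
  set ε₃ : ℝ := min ε₁ (ε₁ ^ 4 / (Λ ^ 3 * (2 * CW) ^ 4)) with hε₃
  have hε₃0 : 0 < ε₃ := lt_min hε₁0 (by positivity)
  have hε₃1 : ε₃ ≤ ε₁ := min_le_left _ _
  have hε₃2 : ε₃ * (Λ ^ 3 * (2 * CW) ^ 4) ≤ ε₁ ^ 4 := by
    have : ε₃ ≤ ε₁ ^ 4 / (Λ ^ 3 * (2 * CW) ^ 4) := min_le_right _ _
    rwa [le_div_iff₀ (by positivity)] at this
  obtain ⟨C3, hC3, hrat⟩ := H336V.TotLog.div_totient_le (ε₃ / 2) (by positivity)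
  have t1 : Tendsto (fun k : ℕ => Real.log k) atTop atTop :=
    Real.tendsto_log_atTop.comp tendsto_natCast_atTop_atTop
  have f0 : ∀ᶠ x : ℝ in atTop, 1 - ε₁ / 2 ≤ (Nat.primeCounting ⌊x⌋₊ : ℝ) * Real.log x / x :=
    (Pool.Agent.Cov.PNT.pi_tendsto.eventually_const_le (by linarith : 1 - ε₁ / 2 < 1))
  obtain ⟨x₀, hx₀⟩ := eventually_atTop.1 f0
  have f1 : ∀ᶠ x : ℝ in atTop, Real.log (Λ * x) ≤ ε₁ / 2 * x := by
    have h1 : ∀ᶠ x : ℝ in atTop, Real.log x ≤ ε₁ / 4 * x := by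
      have h := (Real.isLittleO_log_id_atTop).def (show (0 : ℝ) < ε₁ / 4 by positivity)
      filter_upwards [h, eventually_ge_atTop 1] with x hx hx1
      rw [Real.norm_eq_abs, Real.norm_eq_abs, abs_of_nonneg (Real.log_nonneg hx1), id, abs_of_pos (by linarith)] at hx
      exact hx
    filter_upwards [h1, eventually_ge_atTop 1, eventually_ge_atTop (Real.log Λ / (ε₁ / 4))] with x hx hx1 hx2
    rw [Real.log_mul hΛ.ne' (by linarith)]
    rw [div_le_iff₀ (by positivity)] at hx2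
    linarith
  filter_upwards [QQ_lower δ ε₁ hδ hε₁0, t1.eventually f1, t1.eventually_ge_atTop 1,
    t1.eventually_ge_atTop (2 * C3 / ε₃), t1.eventually_ge_atTop (Real.log 2 / ε₁),
    t1.eventually_ge_atTop (16 * CA * CB * Λ ^ 2 / ε₁),
    ev_log (8 * CA * Λ / ε₁) (1 - 2 * δ) 3 (by linarith) (by positivity),
    ev_log (16 * CA ^ 2 * Λ / ε₁) (1 - 2 * δ) 4 (by linarith) (by positivity),
    eventually_ge_atTop 3, eventually_ge_atTop ⌈x₀⌉₊] with q hQQ g1 hL1 g2 g3 g4 g5 g6 hq3 hqx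
  intro H hH hHq
  set L := Real.log q with hL
  have hL0 : 0 < L := by linarith
  have hq1 : 1 ≤ q := by omega
  have hqr : (1 : ℝ) ≤ q := by exact_mod_cast hq1
  have hq0 : (0 : ℝ) < q := by linarith
  have hφ0 : (0 : ℝ) < Nat.totient q := by exact_mod_cast Nat.totient_pos.2 (by omega)
  set Φ : ℝ := (Nat.totient q : ℝ) with hΦ
  have hφq : Φ ≤ q := by rw [hΦ]; exact_mod_cast Nat.totient_le q
  have hH1 : (1 : ℝ) ≤ H := by exact_mod_cast hH
  set Q : ℝ := q / Φ with hQ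
  have hQ1 : 1 ≤ Q := by rw [hQ, le_div_iff₀ hφ0]; linarith
  have hQ0 : 0 < Q := by linarith
  have hQL : Q ≤ ε₃ * L := by
    have h1 := hrat q hq1
    rw [div_le_iff₀ hε₃0] at g2
    rw [← hQ, ← hL] at h1
    linarith
  have hHQ : (H : ℝ) * Q ≤ Λ * L := by
    rw [hQ, ← mul_div_assoc, div_le_iff₀ hφ0]
    linarith
  have hHL : (H : ℝ) ≤ Λ * L := (le_mul_of_one_le_right (by linarith) hQ1).trans hHQ
  -- the level
  set R : ℕ := ⌊(q : ℝ) ^ δ⌋₊ with hR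
  have hqd : 1 ≤ (q : ℝ) ^ δ := Real.one_le_rpow hqr hδ.le
  have hRle : (R : ℝ) ≤ (q : ℝ) ^ δ := Nat.floor_le (by positivity)
  have hR1 : 1 ≤ R := by rw [hR]; exact Nat.le_floor (by simpa using hqd)
  have hR1r : (1 : ℝ) ≤ R := by exact_mod_cast hR1
  have hRge : (q : ℝ) ^ δ / 2 ≤ R := by
    have := Nat.lt_floor_add_one ((q : ℝ) ^ δ)
    rw [← hR] at this
    linarith
  have hlogR : Real.log R ≤ L := by
    apply Real.log_le_log (by linarith)
    refine hRle.trans ?_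
    calc (q : ℝ) ^ δ ≤ (q : ℝ) ^ (1 : ℝ) := Real.rpow_le_rpow_of_exponent_le hqr (by linarith)
      _ = q := Real.rpow_one _
  have hlogR0 : 0 ≤ Real.log R := Real.log_nonneg hR1r
  -- the coefficients
  set Am : ℝ := 4 * CA * L ^ 2 with hAm
  have hAm0 : 0 ≤ Am := by positivity
  have hAmb : ∀ d ∈ Icc 1 R, |aa R d| ≤ Am := by
    intro d hd
    rw [mem_Icc] at hd
    refine (hAA R d hd.1 hd.2).trans ?_
    have h1 : (1 + Real.log R) ^ 2 ≤ (2 * L) ^ 2 := pow_le_pow_left₀ (by positivity) (by linarith) 2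
    calc CA * (1 + Real.log R) ^ 2 ≤ CA * (2 * L) ^ 2 := mul_le_mul_of_nonneg_left h1 (by linarith)
      _ = Am := by rw [hAm]; ring
  have habsA : absA R ≤ R * Am := by
    unfold absA
    refine (sum_le_sum hAmb).trans ?_
    rw [sum_const, Nat.card_Icc, nsmul_eq_mul, Nat.add_sub_cancel]
  have hA0 := absA_nonneg R
  -- Bombieri-Vinogradov
  set B : ℝ := CB * (H * q / L ^ 5) with hB
  have hBV' : ∀ i ≤ H, ∀ k : ℤ, ∑ d ∈ Icc 1 R, |Er (i * q) d (rho k d)| ≤ B := by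
    intro i hi k
    rcases Nat.eq_zero_or_pos i with h0 | h0
    · have h1 : ∀ d ∈ Icc 1 R, |Er (i * q) d (rho k d)| = 0 := by
        intro d _
        rw [h0, zero_mul]
        unfold Er piAP piN
        simp
      rw [sum_congr rfl h1, sum_const_zero]
      positivity
    · have hN3 : 3 ≤ i * q := by nlinarith
      have h1 := hBV (i * q) hN3 (rho k) (fun d hd => rho_cop k d hd)
      have hiqr : (q : ℝ) ≤ ((i * q : ℕ) : ℝ) := by
        exact_mod_cast Nat.le_mul_of_pos_left q h0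
      have h2 : Icc 1 R ⊆ Icc 1 ⌊((i * q : ℕ) : ℝ) ^ δ⌋₊ := by
        apply Icc_subset_Icc_right
        apply Nat.floor_le_floor
        exact Real.rpow_le_rpow hq0.le hiqr hδ.le
      have h3 : ∑ d ∈ Icc 1 R, |Er (i * q) d (rho k d)| ≤ CB * (((i * q : ℕ) : ℝ) / Real.log ((i * q : ℕ) : ℝ) ^ 5) :=
        (sum_le_sum_of_subset_of_nonneg h2 fun _ _ _ => abs_nonneg _).trans h1
      refine h3.trans ?_
      rw [hB]
      apply mul_le_mul_of_nonneg_left _ hCB.le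
      have h4 : L ≤ Real.log ((i * q : ℕ) : ℝ) := Real.log_le_log hq0 hiqr
      have h5 : ((i * q : ℕ) : ℝ) ≤ H * q := by
        push_cast
        exact mul_le_mul_of_nonneg_right (by exact_mod_cast hi) hq0.le
      exact div_le_div₀ (by positivity) h5 (by positivity) (pow_le_pow_left₀ hL0.le h4 5)
  have hS1 := S1 R H q Am B hAmb hAm0 hBV'
  have hS2 := S2 R H q
  -- the rows
  set E : ℝ := Q * (CW * (H : ℝ) ^ (3 / 4 : ℝ)) with hE
  have hEm : ∀ m ≤ H, ((q : ℝ) / Nat.totient q) * WW R m ≤ E := by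
    intro m hm
    rw [hE]
    apply mul_le_mul_of_nonneg_left _ hQ0.le
    refine (hWW R m).trans ?_
    apply mul_le_mul_of_nonneg_left _ hCW.le
    exact Real.rpow_le_rpow (Nat.cast_nonneg _) (by exact_mod_cast hm) (by norm_num)
  have hE0 : 0 ≤ E := by positivity
  have hEL : 2 * E ≤ ε₁ * L := by
    have h1 : (2 * E) ^ 4 ≤ (ε₁ * L) ^ 4 := by
      have h2 : ((H : ℝ) ^ (3 / 4 : ℝ)) ^ 4 = (H : ℝ) ^ 3 := by
        rw [← Real.rpow_natCast, ← Real.rpow_mul (by linarith), ← Real.rpow_natCast]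
        norm_num
      have h3 : (2 * E) ^ 4 = (2 * CW) ^ 4 * Q * (H * Q) ^ 3 := by
        rw [hE]
        calc (2 * (Q * (CW * (H : ℝ) ^ (3 / 4 : ℝ)))) ^ 4 = (2 * CW) ^ 4 * Q ^ 4 * ((H : ℝ) ^ (3 / 4 : ℝ)) ^ 4 := by ring
          _ = (2 * CW) ^ 4 * Q * (H * Q) ^ 3 := by rw [h2]; ring
      rw [h3]
      calc (2 * CW) ^ 4 * Q * (H * Q) ^ 3 ≤ (2 * CW) ^ 4 * (ε₃ * L) * (Λ * L) ^ 3 := by
            have h4 : (H * Q) ^ 3 ≤ (Λ * L) ^ 3 := pow_le_pow_left₀ (by positivity) hHQ 3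
            have h5 : (2 * CW) ^ 4 * Q ≤ (2 * CW) ^ 4 * (ε₃ * L) := mul_le_mul_of_nonneg_left hQL (by positivity)
            exact mul_le_mul h5 h4 (by positivity) (by positivity)
        _ = (ε₃ * (Λ ^ 3 * (2 * CW) ^ 4)) * L ^ 4 := by ring
        _ ≤ ε₁ ^ 4 * L ^ 4 := mul_le_mul_of_nonneg_right hε₃2 (by positivity)
        _ = (ε₁ * L) ^ 4 := by ring
    exact le_of_pow_le_pow_left₀ (by norm_num) (by positivity) h1
  set M : ℝ := SS R 0 + ((H : ℝ) - 1) * QQ R q with hM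
  have hrow : ∀ i ∈ range H, |∑ j ∈ range H, SS R (((j : ℤ) - i) * q) - M| ≤ 2 * E := by
    intro i hi
    exact T_bound R q H i hq1 (mem_range.1 hi) E hEm
  set x : ℝ := (H : ℝ) * q with hx
  have hx0 : 0 < x := by positivity
  -- the prime side
  set PI : ℝ := (piN (H * q) : ℝ) with hPI
  have hXlow : PI * (M - 2 * E) - (H : ℝ) ^ 2 * (2 * Am * B + R * absA R) ≤ ∑ a ∈ Icc 1 q, (Np H q a : ℝ) * Psi R H q a := by
    have h1 : PI * (M - 2 * E) ≤
        ∑ i ∈ range H, ∑ j ∈ range H, ((piN ((i + 1) * q) : ℝ) - piN (i * q)) * SS R (((j : ℤ) - i) * q) := by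
      have h2 : PI = ∑ i ∈ range H, ((piN ((i + 1) * q) : ℝ) - piN (i * q)) := by
        rw [Finset.sum_range_sub (fun i => (piN (i * q) : ℝ)) H]
        have h0 : piN (0 * q) = 0 := by rw [zero_mul, piN_eq]; simp
        rw [h0, Nat.cast_zero, sub_zero]
      rw [h2, sum_mul]
      apply sum_le_sum
      intro i hi
      rw [← mul_sum]
      apply mul_le_mul_of_nonneg_left
      · have := (abs_le.1 (hrow i hi)).1
        linarith
      · have : piN (i * q) ≤ piN ((i + 1) * q) := piN_mono (Nat.mul_le_mul_right q (Nat.le_succ i))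
        have h3 : (piN (i * q) : ℝ) ≤ piN ((i + 1) * q) := by exact_mod_cast this
        linarith
    have := (abs_le.1 hS1).1
    linarith
  have hYup : ∑ a ∈ Icc 1 q, (Psi R H q a) ^ 2 ≤ x * (M + 2 * E) + (H : ℝ) ^ 2 * (absA R) ^ 2 := by
    have h1 : (q : ℝ) * ∑ i ∈ range H, ∑ j ∈ range H, SS R (((j : ℤ) - i) * q) ≤ x * (M + 2 * E) := by
      have h2 : ∑ i ∈ range H, ∑ j ∈ range H, SS R (((j : ℤ) - i) * q) ≤ ∑ i ∈ range H, (M + 2 * E) := by
        apply sum_le_sum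
        intro i hi
        have := (abs_le.1 (hrow i hi)).2
        linarith
      rw [sum_const, card_range, nsmul_eq_mul] at h2
      calc (q : ℝ) * ∑ i ∈ range H, ∑ j ∈ range H, SS R (((j : ℤ) - i) * q) ≤ q * (H * (M + 2 * E)) :=
            mul_le_mul_of_nonneg_left h2 hq0.le
        _ = x * (M + 2 * E) := by rw [hx]; ring
    have := (abs_le.1 hS2).2
    linarith
  -- Cauchy
  have h0 : 2 / L * (∑ a ∈ Icc 1 q, (Np H q a : ℝ) * Psi R H q a) - 1 / L ^ 2 * (∑ a ∈ Icc 1 q, (Psi R H q a) ^ 2) ≤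
      ∑ a ∈ Icc 1 q, (Np H q a : ℝ) ^ 2 := by
    have h1 : 0 ≤ ∑ a ∈ Icc 1 q, ((Np H q a : ℝ) - 1 / L * Psi R H q a) ^ 2 := sum_nonneg fun _ _ => sq_nonneg _
    have h2 : ∑ a ∈ Icc 1 q, ((Np H q a : ℝ) - 1 / L * Psi R H q a) ^ 2 =
        ∑ a ∈ Icc 1 q, (Np H q a : ℝ) ^ 2 - 2 / L * (∑ a ∈ Icc 1 q, (Np H q a : ℝ) * Psi R H q a) +
          1 / L ^ 2 * (∑ a ∈ Icc 1 q, (Psi R H q a) ^ 2) := by
      rw [mul_sum, mul_sum, ← sum_sub_distrib, ← sum_add_distrib]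
      apply sum_congr rfl
      intro a _
      ring
    linarith
  -- the prime number theorem
  have hPIlow : (1 - ε₁) * (x / L) ≤ PI := by
    have h1 : x₀ ≤ x := by
      have h2 : x₀ ≤ q := (Nat.le_ceil x₀).trans (by exact_mod_cast hqx)
      have h3 : (q : ℝ) ≤ x := by rw [hx]; exact le_mul_of_one_le_left hq0.le hH1
      linarith
    have h2 := hx₀ x h1
    have h3 : ⌊x⌋₊ = H * q := by
      rw [hx, ← Nat.cast_mul, Nat.floor_natCast]
    rw [h3, ← piN_eq, ← hPI, le_div_iff₀ hx0] at h2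
    have h4 : Real.log x ≤ (1 + ε₁ / 2) * L := by
      rw [hx, Real.log_mul (by positivity) hq0.ne']
      have h5 : Real.log H ≤ Real.log (Λ * L) := Real.log_le_log (by linarith) hHL
      linarith
    have hPI0 : 0 ≤ PI := Nat.cast_nonneg _
    have h5 : (1 - ε₁ / 2) * x ≤ PI * ((1 + ε₁ / 2) * L) := h2.trans (mul_le_mul_of_nonneg_left h4 hPI0)
    have h6 : (1 - ε₁) * (1 + ε₁ / 2) ≤ 1 - ε₁ / 2 := by nlinarith
    have h7 : (1 - ε₁) * (1 + ε₁ / 2) * x ≤ PI * ((1 + ε₁ / 2) * L) := (mul_le_mul_of_nonneg_right h6 hx0.le).trans h5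
    rw [mul_div_assoc', div_le_iff₀ hL0]
    have h8 : (0 : ℝ) < 1 + ε₁ / 2 := by positivity
    have h9 : (1 + ε₁ / 2) * ((1 - ε₁) * x) ≤ (1 + ε₁ / 2) * (PI * L) := by linarith
    exact le_of_mul_le_mul_left h9 h8
  -- the errors
  have hq2d : (q : ℝ) ^ (1 - 2 * δ) * (R : ℝ) ^ 2 ≤ (q : ℝ) := by
    calc (q : ℝ) ^ (1 - 2 * δ) * (R : ℝ) ^ 2 ≤ (q : ℝ) ^ (1 - 2 * δ) * ((q : ℝ) ^ δ) ^ 2 := by
          apply mul_le_mul_of_nonneg_left _ (by positivity)
          exact pow_le_pow_left₀ (by positivity) hRle 2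
      _ = (q : ℝ) := by
          have h1 : ((q : ℝ) ^ δ) ^ 2 = (q : ℝ) ^ (2 * δ) := by
            rw [← Real.rpow_natCast, ← Real.rpow_mul hq0.le]
            congr 1
            push_cast
            ring
          rw [h1, ← Real.rpow_add hq0]
          have h2 : (1 - 2 * δ + 2 * δ : ℝ) = 1 := by ring
          rw [h2, Real.rpow_one]
  have hE1 : (H : ℝ) ^ 2 * (2 * Am * B + R * absA R) ≤ ε₁ * x := by
    have h1 : (H : ℝ) * (2 * Am * B) ≤ ε₁ / 2 * q := by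
      rw [div_le_iff₀ hε₁0] at g4
      calc (H : ℝ) * (2 * Am * B) = 8 * CA * CB * q * (H * H) / L ^ 3 := by
            rw [hAm, hB]; field_simp; ring
        _ ≤ 8 * CA * CB * q * ((Λ * L) * (Λ * L)) / L ^ 3 := by
            have : (H : ℝ) * H ≤ (Λ * L) * (Λ * L) := mul_le_mul hHL hHL (by positivity) (by positivity)
            gcongr
        _ = (8 * CA * CB * Λ ^ 2) * q / L := by field_simp
        _ ≤ ε₁ / 2 * q := by
            rw [div_le_iff₀ hL0]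
            have : (8 * CA * CB * Λ ^ 2) * q ≤ (L * ε₁ / 2) * q := mul_le_mul_of_nonneg_right (by linarith) hq0.le
            linarith
    have h2 : (H : ℝ) * (R * absA R) ≤ ε₁ / 2 * q := by
      calc (H : ℝ) * (R * absA R) ≤ (Λ * L) * (R * (R * Am)) := by gcongr
        _ = (ε₁ / 2) * ((8 * CA * Λ / ε₁ * L ^ 3) * (R : ℝ) ^ 2) := by rw [hAm]; field_simp; ring
        _ ≤ (ε₁ / 2) * ((q : ℝ) ^ (1 - 2 * δ) * (R : ℝ) ^ 2) := by
            apply mul_le_mul_of_nonneg_left _ (by positivity)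
            exact mul_le_mul_of_nonneg_right g5 (by positivity)
        _ ≤ (ε₁ / 2) * q := mul_le_mul_of_nonneg_left hq2d (by positivity)
    calc (H : ℝ) ^ 2 * (2 * Am * B + R * absA R) = H * ((H : ℝ) * (2 * Am * B) + (H : ℝ) * (R * absA R)) := by ring
      _ ≤ H * (ε₁ * q) := mul_le_mul_of_nonneg_left (by linarith) (by positivity)
      _ = ε₁ * x := by rw [hx]; ring
  have hEa : (H : ℝ) ^ 2 * (absA R) ^ 2 ≤ ε₁ * (x * L) := by
    have h2 : (H : ℝ) * (absA R) ^ 2 ≤ ε₁ * (q * L) := by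
      calc (H : ℝ) * (absA R) ^ 2 ≤ (Λ * L) * (R * Am) ^ 2 := by gcongr
        _ = (ε₁ * L) * ((16 * CA ^ 2 * Λ / ε₁ * L ^ 4) * (R : ℝ) ^ 2) := by rw [hAm]; field_simp; ring
        _ ≤ (ε₁ * L) * ((q : ℝ) ^ (1 - 2 * δ) * (R : ℝ) ^ 2) := by
            apply mul_le_mul_of_nonneg_left _ (by positivity)
            exact mul_le_mul_of_nonneg_right g6 (by positivity)
        _ ≤ (ε₁ * L) * q := mul_le_mul_of_nonneg_left hq2d (by positivity)
        _ = ε₁ * (q * L) := by ring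
    calc (H : ℝ) ^ 2 * (absA R) ^ 2 = H * (H * (absA R) ^ 2) := by ring
      _ ≤ H * (ε₁ * (q * L)) := mul_le_mul_of_nonneg_left h2 (by positivity)
      _ = ε₁ * (x * L) := by rw [hx]; ring
  -- the main term
  have hSS0 : (δ - ε₁) * L ≤ SS R 0 := by
    refine le_trans ?_ (SS0_lower R hR1)
    have h1 : Real.log ((q : ℝ) ^ δ / 2) ≤ Real.log R := Real.log_le_log (by positivity) hRge
    rw [Real.log_div (by positivity) (by norm_num), Real.log_rpow hq0] at h1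
    rw [div_le_iff₀ hε₁0] at g3
    linarith
  have hQQ' := hQQ R hRge
  have hQQ0 : 0 ≤ QQ R q := by
    refine le_trans ?_ hQQ'
    apply mul_nonneg (by linarith) (by positivity)
  set u : ℝ := x / (Φ * L) with hu
  have hu0 : 0 ≤ u := by positivity
  have huΛ : u ≤ Λ := by
    rw [hu, div_le_iff₀ (by positivity)]
    exact hHq
  have huL : u * L = H * Q := by
    rw [hu, hQ, hx]
    field_simp
  have hMlow : (δ - ε₁) * L + (1 - ε₁) * ((u - ε₁) * L) ≤ M := by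
    have h1 : (1 - ε₁) * ((u - ε₁) * L) ≤ ((H : ℝ) - 1) * QQ R q := by
      calc (1 - ε₁) * ((u - ε₁) * L) ≤ (1 - ε₁) * (((H : ℝ) - 1) * Q) := by
            apply mul_le_mul_of_nonneg_left _ (by linarith)
            have h2 : Q ≤ ε₁ * L := hQL.trans (mul_le_mul_of_nonneg_right hε₃1 hL0.le)
            have h3 : (u - ε₁) * L = H * Q - ε₁ * L := by rw [sub_mul, huL]
            rw [h3]
            linarith
        _ = ((H : ℝ) - 1) * ((1 - ε₁) * Q) := by ring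
        _ ≤ ((H : ℝ) - 1) * QQ R q := mul_le_mul_of_nonneg_left hQQ' (by linarith)
    rw [hM]
    linarith
  have hM0 : 0 ≤ M - 2 * E := by
    have h1 : 0 ≤ ((H : ℝ) - 1) * QQ R q := mul_nonneg (by linarith) hQQ0
    have h2 : 2 * ε₁ * L ≤ (δ - ε₁) * L := mul_le_mul_of_nonneg_right (by linarith) hL0.le
    have h3 : 0 ≤ ε₁ * L := by positivity
    rw [hM]
    linarith
  exact assemble hL0 hx0.le hε₁0 (by linarith) hδ2.le hε₁ε hu0 huΛ h0 hXlow hYup hPIlow hEL hE1 hEa hM0 hMlow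

end Pool.Agent.R502.FG
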