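import Pool.Agent.R502.FG.PSide
import Pool.Agent.H373R2.T7.Fund
import Pool.Agent.H646.Moment
import Pool.Agent.H646.Sv3

/-! Triples of primes in a class: the sieve upper bound. -/

set_option autoImplicit false
set_option maxHeartbeats 4000000

namespace Pool.Agent.R502.FG
open Finset
open Pool.Agent.H373R2.T7 (pz nuB PerB mem_pz)
open Pool.Agent.H646 (rat)
open Pool.Agent.H646.Sv3M (log_le_euler one_le_prod_real prod_mono_set prime_factor_pos one_le_inv_factor rat_eq)

lemma pz_eq (y : ℕ) : pz y = (y + 1).primesBelow := by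
  ext p
  rw [mem_pz, Nat.mem_primesBelow]
  constructor
  · rintro ⟨h1, h2⟩
    exact ⟨by omega, h2⟩
  · rintro ⟨h1, h2⟩
    exact ⟨by omega, h2⟩

lemma V_pos (y : ℕ) : 0 < ∏ p ∈ pz y, (1 - (p : ℝ)⁻¹) :=
  prod_pos fun _ hp => (prime_factor_pos (mem_pz.1 hp).2).1

lemma V_le (y : ℕ) (hy : 2 ≤ y) : ∏ p ∈ pz y, (1 - (p : ℝ)⁻¹) ≤ 1 / Real.log y := by
  have h := log_le_euler y
  rw [← pz_eq, Finset.prod_inv_distrib] at h
  have hlog : 0 < Real.log y := Real.log_pos (by exact_mod_cast hy)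
  have hP := V_pos y
  rw [le_div_iff₀ hlog]
  calc (∏ p ∈ pz y, (1 - (p : ℝ)⁻¹)) * Real.log y ≤ (∏ p ∈ pz y, (1 - (p : ℝ)⁻¹)) * (∏ p ∈ pz y, (1 - (p : ℝ)⁻¹))⁻¹ :=
        mul_le_mul_of_nonneg_left h hP.le
    _ = 1 := mul_inv_cancel₀ hP.ne'

/-- the absolute difference -/
def dd (i j : ℕ) : ℕ := (i - j) + (j - i)

lemma dd_pos {i j : ℕ} (h : i ≠ j) : 1 ≤ dd i j := by unfold dd; omega

lemma dd_dvd {p q r i j : ℕ} (hi : p ∣ r + i * q) (hj : p ∣ r + j * q) : p ∣ dd i j * q := by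
  rcases le_total i j with h | h
  · have h1 : dd i j * q = (r + j * q) - (r + i * q) := by
      have e1 : dd i j = j - i := by unfold dd; omega
      rw [e1, Nat.sub_mul]
      omega
    rw [h1]
    exact Nat.dvd_sub hj hi
  · have h1 : dd i j * q = (r + i * q) - (r + j * q) := by
      have e1 : dd i j = i - j := by unfold dd; omega
      rw [e1, Nat.sub_mul]
      omega
    rw [h1]
    exact Nat.dvd_sub hi hj

/-- the condition for the three shifts -/
def Q3 (q i j l p n : ℕ) : Prop := p ∣ n + i * q ∨ p ∣ n + j * q ∨ p ∣ n + l * q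

lemma one_class (p c : ℕ) : ((range p).filter (fun r => p ∣ r + c)).card ≤ 1 := by
  rw [card_le_one]
  intro a ha b hb
  rw [mem_filter, mem_range] at ha hb
  have h1 : a + c ≡ b + c [MOD p] := (Nat.modEq_zero_iff_dvd.2 ha.2).trans (Nat.modEq_zero_iff_dvd.2 hb.2).symm
  exact Nat.ModEq.eq_of_lt_of_lt (Nat.ModEq.add_right_cancel' c h1) ha.1 hb.1

lemma has_class (p c : ℕ) (hp : 1 ≤ p) : ∃ r < p, p ∣ r + c := by
  refine ⟨(p - c % p) % p, Nat.mod_lt _ hp, ?_⟩
  have h0 : c % p < p := Nat.mod_lt _ hp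
  have h1 : (p - c % p) % p ≡ p - c % p [MOD p] := Nat.mod_modEq _ _
  have h2 : c ≡ c % p [MOD p] := (Nat.mod_modEq _ _).symm
  have h3 := h1.add h2
  rw [Nat.sub_add_cancel h0.le] at h3
  exact Nat.modEq_zero_iff_dvd.1 (h3.trans (Nat.modEq_zero_iff_dvd.2 dvd_rfl))

lemma per3 (q i j l : ℕ) : PerB (Q3 q i j l) 3 := by
  classical
  refine ⟨fun p n => ?_, fun p _ => ?_⟩
  · have h : ∀ c, (p ∣ n + c ↔ p ∣ n % p + c) := by
      intro c
      rw [Nat.dvd_iff_mod_eq_zero, Nat.dvd_iff_mod_eq_zero, Nat.mod_add_mod]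
    unfold Q3
    rw [← h, ← h, ← h]
  · have h1 : nuB (Q3 q i j l) p = ((range p).filter (fun r => Q3 q i j l p r)).card := by
      unfold nuB
      congr
    rw [h1]
    have h2 : (range p).filter (fun r => Q3 q i j l p r) ⊆ ((range p).filter (fun r => p ∣ r + i * q)) ∪
        (((range p).filter (fun r => p ∣ r + j * q)) ∪ ((range p).filter (fun r => p ∣ r + l * q))) := by
      intro r hr
      rw [mem_filter] at hr
      rw [mem_union, mem_union, mem_filter, mem_filter, mem_filter]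
      rcases hr.2 with h | h | h
      · exact Or.inl ⟨hr.1, h⟩
      · exact Or.inr (Or.inl ⟨hr.1, h⟩)
      · exact Or.inr (Or.inr ⟨hr.1, h⟩)
    refine (card_le_card h2).trans ?_
    refine (card_union_le _ _).trans ?_
    have h3 := card_union_le ((range p).filter (fun r => p ∣ r + j * q)) ((range p).filter (fun r => p ∣ r + l * q))
    have a1 := one_class p (i * q)
    have a2 := one_class p (j * q)
    have a3 := one_class p (l * q)
    omega

lemma nu_one (q i j l p : ℕ) (hp : 1 ≤ p) : 1 ≤ nuB (Q3 q i j l) p := by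
  classical
  have h1 : nuB (Q3 q i j l) p = ((range p).filter (fun r => Q3 q i j l p r)).card := by
    unfold nuB
    congr
  rw [h1]
  obtain ⟨r, hr, hrp⟩ := has_class p (i * q) hp
  exact card_pos.2 ⟨r, mem_filter.2 ⟨mem_range.2 hr, Or.inl hrp⟩⟩

lemma nu_three (q i j l p : ℕ) (hp : p.Prime) (hq : ¬ p ∣ q) (h1 : ¬ p ∣ dd i j) (h2 : ¬ p ∣ dd j l) (h3 : ¬ p ∣ dd i l) :
    3 ≤ nuB (Q3 q i j l) p := by
  classical
  have h0 : nuB (Q3 q i j l) p = ((range p).filter (fun r => Q3 q i j l p r)).card := by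
    unfold nuB
    congr
  rw [h0]
  have key : ∀ {i j r : ℕ}, ¬ p ∣ dd i j → p ∣ r + i * q → p ∣ r + j * q → False := by
    intro i j r hn ha hb
    rcases (hp.dvd_mul).1 (dd_dvd ha hb) with h | h
    · exact hn h
    · exact hq h
  obtain ⟨r1, hr1, hr1p⟩ := has_class p (i * q) hp.one_lt.le
  obtain ⟨r2, hr2, hr2p⟩ := has_class p (j * q) hp.one_lt.le
  obtain ⟨r3, hr3, hr3p⟩ := has_class p (l * q) hp.one_lt.le
  have n12 : r1 ≠ r2 := by
    rintro rfl
    exact key h1 hr1p hr2p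
  have n23 : r2 ≠ r3 := by
    rintro rfl
    exact key h2 hr2p hr3p
  have n13 : r1 ≠ r3 := by
    rintro rfl
    exact key h3 hr1p hr3p
  have hc : ({r1, r2, r3} : Finset ℕ).card = 3 := card_eq_three.2 ⟨r1, r2, r3, n12, n13, n23, rfl⟩
  rw [← hc]
  apply card_le_card
  intro r hr
  rw [mem_insert, mem_insert, mem_singleton] at hr
  rw [mem_filter, mem_range]
  rcases hr with h | h | h
  · rw [h]; exact ⟨hr1, Or.inl hr1p⟩
  · rw [h]; exact ⟨hr2, Or.inr (Or.inl hr2p)⟩
  · rw [h]; exact ⟨hr3, Or.inr (Or.inr hr3p)⟩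

/-- the factor of a divisor -/
noncomputable def gg (m p : ℕ) : ℝ := if p ∣ m then (1 - (p : ℝ)⁻¹)⁻¹ else 1

lemma gg_one (m : ℕ) {p : ℕ} (hp : p.Prime) : 1 ≤ gg m p := by
  unfold gg
  split_ifs
  · exact one_le_inv_factor hp
  · exact le_rfl

lemma prod_gg (m y : ℕ) (hm : 1 ≤ m) : ∏ p ∈ pz y, gg m p ≤ rat m := by
  classical
  have h1 : ∏ p ∈ pz y, gg m p = ∏ p ∈ (pz y).filter (fun p => p ∣ m), (1 - (p : ℝ)⁻¹)⁻¹ := by
    rw [prod_filter]
    rfl
  rw [h1, rat_eq hm]
  apply prod_mono_set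
  · intro p hp
    rw [mem_filter, mem_pz] at hp
    exact Nat.mem_primeFactors.2 ⟨hp.1.2, hp.2, by omega⟩
  · intro p hp
    exact one_le_inv_factor (Nat.prime_of_mem_primeFactors hp)

lemma rat_one_le {m : ℕ} (hm : 1 ≤ m) : 1 ≤ rat m := by
  rw [rat_eq hm]
  exact one_le_prod_real fun p hp => one_le_inv_factor (Nat.prime_of_mem_primeFactors hp)

lemma local3 (q i j l p : ℕ) (hp : p.Prime) :
    1 - (nuB (Q3 q i j l) p : ℝ) / p ≤
      (1 - (p : ℝ)⁻¹) ^ 3 * (gg q p * gg (dd i j) p * gg (dd j l) p * gg (dd i l) p) ^ 2 := by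
  have hw := prime_factor_pos hp
  set w : ℝ := 1 - (p : ℝ)⁻¹ with hwdef
  have hp0 : (0 : ℝ) < p := by exact_mod_cast hp.pos
  set t : ℝ := (p : ℝ)⁻¹ with ht
  have ht0 : 0 < t := by rw [ht]; positivity
  have ht1 : t ≤ 1 := by
    rw [ht]
    exact inv_le_one_of_one_le₀ (by exact_mod_cast hp.one_lt.le)
  have g0 := gg_one q hp
  have g1 := gg_one (dd i j) hp
  have g2 := gg_one (dd j l) hp
  have g3 := gg_one (dd i l) hp
  have hG1 : 1 ≤ gg q p * gg (dd i j) p * gg (dd j l) p * gg (dd i l) p :=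
    one_le_mul_of_one_le_of_one_le (one_le_mul_of_one_le_of_one_le (one_le_mul_of_one_le_of_one_le g0 g1) g2) g3
  set G : ℝ := gg q p * gg (dd i j) p * gg (dd j l) p * gg (dd i l) p with hG
  by_cases hgood : ¬ p ∣ q ∧ ¬ p ∣ dd i j ∧ ¬ p ∣ dd j l ∧ ¬ p ∣ dd i l
  · have h3 := nu_three q i j l p hp hgood.1 hgood.2.1 hgood.2.2.1 hgood.2.2.2
    have h3' : (3 : ℝ) ≤ nuB (Q3 q i j l) p := by exact_mod_cast h3
    have e1 : 1 - (nuB (Q3 q i j l) p : ℝ) / p ≤ 1 - 3 * t := by
      rw [div_eq_mul_inv, ← ht]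
      have := mul_le_mul_of_nonneg_right h3' ht0.le
      linarith
    have e2 : 1 - 3 * t ≤ w ^ 3 := by
      rw [hwdef]
      have : 0 ≤ t ^ 2 * (3 - t) := by apply mul_nonneg (by positivity); linarith
      nlinarith
    have e3 : w ^ 3 ≤ w ^ 3 * G ^ 2 := le_mul_of_one_le_right (by positivity) (one_le_pow₀ hG1)
    linarith
  · have h1 := nu_one q i j l p hp.one_lt.le
    have h1' : (1 : ℝ) ≤ nuB (Q3 q i j l) p := by exact_mod_cast h1
    have e1 : 1 - (nuB (Q3 q i j l) p : ℝ) / p ≤ w := by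
      rw [div_eq_mul_inv, ← ht, hwdef]
      have := mul_le_mul_of_nonneg_right h1' ht0.le
      linarith
    have hGw : w⁻¹ ≤ G := by
      have hw1 : 1 ≤ w⁻¹ := one_le_inv_factor hp
      rw [not_and_or, not_and_or, not_and_or, not_not, not_not, not_not, not_not] at hgood
      have gen : ∀ a b c d : ℝ, 1 ≤ a → 1 ≤ b → 1 ≤ c → 1 ≤ d → a ≤ a * b * c * d ∧ b ≤ a * b * c * d ∧
          c ≤ a * b * c * d ∧ d ≤ a * b * c * d := by
        intro a b c d ha hb hc hd
        have hab : 1 ≤ a * b := one_le_mul_of_one_le_of_one_le ha hb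
        have habc : 1 ≤ a * b * c := one_le_mul_of_one_le_of_one_le hab hc
        have k1 : a ≤ a * b := le_mul_of_one_le_right (by linarith) hb
        have k2 : b ≤ a * b := le_mul_of_one_le_left (by linarith) ha
        have k3 : a * b ≤ a * b * c := le_mul_of_one_le_right (by linarith) hc
        have k4 : c ≤ a * b * c := le_mul_of_one_le_left (by linarith) hab
        have k5 : a * b * c ≤ a * b * c * d := le_mul_of_one_le_right (by linarith) hd
        have k6 : d ≤ a * b * c * d := le_mul_of_one_le_left (by linarith) habc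
        exact ⟨by linarith, by linarith, by linarith, k6⟩
      obtain ⟨m1, m2, m3, m4⟩ := gen _ _ _ _ g0 g1 g2 g3
      rcases hgood with h | h | h | h
      · have : gg q p = w⁻¹ := by unfold gg; rw [if_pos h]
        rw [← this]; exact m1
      · have : gg (dd i j) p = w⁻¹ := by unfold gg; rw [if_pos h]
        rw [← this]; exact m2
      · have : gg (dd j l) p = w⁻¹ := by unfold gg; rw [if_pos h]
        rw [← this]; exact m3
      · have : gg (dd i l) p = w⁻¹ := by unfold gg; rw [if_pos h]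
        rw [← this]; exact m4
    have hwi : 0 < w⁻¹ := inv_pos.2 hw.1
    have e2 : w = w ^ 3 * (w⁻¹) ^ 2 := by
      have := hw.1.ne'
      field_simp
    have e3 : w ^ 3 * (w⁻¹) ^ 2 ≤ w ^ 3 * G ^ 2 := by
      apply mul_le_mul_of_nonneg_left _ (pow_pos hw.1 3).le
      exact pow_le_pow_left₀ hwi.le hGw 2
    linarith

lemma prod3 (q i j l y : ℕ) (hq : 1 ≤ q) (hij : i ≠ j) (hjl : j ≠ l) (hil : i ≠ l) (hy : 2 ≤ y) :
    ∏ p ∈ pz y, (1 - (nuB (Q3 q i j l) p : ℝ) / p) ≤
      (1 / Real.log y) ^ 3 * (rat q * rat (dd i j) * rat (dd j l) * rat (dd i l)) ^ 2 := by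
  have h1 : ∏ p ∈ pz y, (1 - (nuB (Q3 q i j l) p : ℝ) / p) ≤
      ∏ p ∈ pz y, ((1 - (p : ℝ)⁻¹) ^ 3 * (gg q p * gg (dd i j) p * gg (dd j l) p * gg (dd i l) p) ^ 2) := by
    apply prod_le_prod
    · intro p hp
      have hp0 : (0 : ℝ) < p := by exact_mod_cast (mem_pz.1 hp).2.pos
      have : (nuB (Q3 q i j l) p : ℝ) / p ≤ 1 := by
        rw [div_le_one hp0]
        exact_mod_cast Pool.Agent.H373R2.T7.nuB_le _ _
      linarith
    · intro p hp
      exact local3 q i j l p (mem_pz.1 hp).2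
  refine h1.trans ?_
  rw [prod_mul_distrib, prod_pow, prod_pow, prod_mul_distrib, prod_mul_distrib, prod_mul_distrib]
  have gp : ∀ m, 0 ≤ ∏ p ∈ pz y, gg m p := fun m => prod_nonneg fun p hp => by
    have := gg_one m (mem_pz.1 hp).2
    linarith
  have r0 := prod_gg q y hq
  have r1 := prod_gg (dd i j) y (dd_pos hij)
  have r2 := prod_gg (dd j l) y (dd_pos hjl)
  have r3 := prod_gg (dd i l) y (dd_pos hil)
  have q0 := rat_one_le hq
  have q1 := rat_one_le (dd_pos hij)
  have q2 := rat_one_le (dd_pos hjl)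
  have q3 := rat_one_le (dd_pos hil)
  have hV := V_le y hy
  have hVp := V_pos y
  have hlog : 0 < Real.log y := Real.log_pos (by exact_mod_cast hy)
  apply mul_le_mul
  · exact pow_le_pow_left₀ hVp.le hV 3
  · apply pow_le_pow_left₀
    · exact mul_nonneg (mul_nonneg (mul_nonneg (gp _) (gp _)) (gp _)) (gp _)
    · apply mul_le_mul _ r3 (gp _) (by positivity)
      apply mul_le_mul _ r2 (gp _) (by positivity)
      exact mul_le_mul r0 r1 (gp _) (by linarith)
  · positivity
  · positivity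

/-- the triples -/
def TT (q i j l : ℕ) : ℕ := ((Icc 1 q).filter (fun a => (a + i * q).Prime ∧ (a + j * q).Prime ∧ (a + l * q).Prime)).card

theorem triple : ∃ K x0 : ℕ, 2 ≤ K ∧ 2 ≤ x0 ∧ ∀ q y : ℕ, x0 ≤ y → y ^ K ≤ q → ∀ i j l : ℕ, i ≠ j → j ≠ l → i ≠ l →
    (TT q i j l : ℝ) ≤ y + √(q : ℝ) +
      2 * (q * ((1 / Real.log y) ^ 3 * (rat q * rat (dd i j) * rat (dd j l) * rat (dd i l)) ^ 2)) := by
  classical
  obtain ⟨K, x0, hK, h⟩ := Pool.Agent.H373R2.T7.sys_fund 3 (by norm_num) 1 one_pos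
  refine ⟨max K 2, max x0 2, le_max_right _ _, le_max_right _ _, fun q y hy hyq i j l hij hjl hil => ?_⟩
  have hy2 : 2 ≤ y := (le_max_right _ _).trans hy
  have hyK : y ^ K ≤ q := (Nat.pow_le_pow_right (by omega) (le_max_left _ _)).trans hyq
  have hq1 : 1 ≤ q := (Nat.one_le_pow _ _ (by omega)).trans hyK
  have h1 := h q y ((le_max_left _ _).trans hy) hyK (Q3 q i j l) (per3 q i j l) q
  have h2 := prod3 q i j l y hq1 hij hjl hil hy2
  set S := (Icc 1 q).filter (fun n : ℕ => ∀ p ∈ pz y, ¬ Q3 q i j l p n) with hS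
  have h3 : TT q i j l ≤ y + S.card := by
    unfold TT
    have hsub : (Icc 1 q).filter (fun a => (a + i * q).Prime ∧ (a + j * q).Prime ∧ (a + l * q).Prime) ⊆ Icc 1 y ∪ S := by
      intro a ha
      rw [mem_filter, mem_Icc] at ha
      rw [mem_union, mem_Icc, hS, mem_filter, mem_Icc]
      by_cases hay : a ≤ y
      · exact Or.inl ⟨ha.1.1, hay⟩
      · right
        refine ⟨ha.1, fun p hp hQ => ?_⟩
        rw [mem_pz] at hp
        have key : ∀ c, (a + c).Prime → ¬ p ∣ a + c := by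
          intro c hc hd
          have := (Nat.prime_dvd_prime_iff_eq hp.2 hc).1 hd
          omega
        rcases hQ with h | h | h
        · exact key _ ha.2.1 h
        · exact key _ ha.2.2.1 h
        · exact key _ ha.2.2.2 h
    refine (card_le_card hsub).trans ?_
    refine (card_union_le _ _).trans ?_
    rw [Nat.card_Icc]
    omega
  have h3' : (TT q i j l : ℝ) ≤ y + S.card := by exact_mod_cast h3
  have h4 := (abs_le.1 h1).2
  have h5 : (q : ℝ) * ∏ p ∈ pz y, (1 - (nuB (Q3 q i j l) p : ℝ) / p) ≤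
      q * ((1 / Real.log y) ^ 3 * (rat q * rat (dd i j) * rat (dd j l) * rat (dd i l)) ^ 2) :=
    mul_le_mul_of_nonneg_left h2 (Nat.cast_nonneg _)
  have h6 : (S.card : ℝ) ≤ 2 * (q * ((1 / Real.log y) ^ 3 * (rat q * rat (dd i j) * rat (dd j l) * rat (dd i l)) ^ 2)) + √(q : ℝ) := by
    have h7 : (S.card : ℝ) - q * ∏ p ∈ pz y, (1 - (nuB (Q3 q i j l) p : ℝ) / p) ≤
        1 * (q * ∏ p ∈ pz y, (1 - (nuB (Q3 q i j l) p : ℝ) / p)) + √(q : ℝ) := by
      rw [hS]
      convert h4 using 3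
    linarith
  linarith

/-- the weights of the triples -/
noncomputable def D6 (i j : ℕ) : ℝ := if i = j then 0 else rat (dd i j) ^ 6

lemma D6_nonneg (i j : ℕ) : 0 ≤ D6 i j := by
  unfold D6
  split_ifs
  · exact le_rfl
  · unfold rat; positivity

lemma amgm3 {a b c : ℝ} (ha : 0 ≤ a) (hb : 0 ≤ b) (hc : 0 ≤ c) : (a * b * c) ^ 2 ≤ a ^ 6 + b ^ 6 + c ^ 6 := by
  have h : ∀ x y z : ℝ, 0 ≤ x → 0 ≤ y → 0 ≤ z → x * y * z ≤ x ^ 3 + y ^ 3 + z ^ 3 := by
    intro x y z hx hy hz
    have hm : ∀ M : ℝ, 0 ≤ M → x ≤ M → y ≤ M → z ≤ M → x * y * z ≤ M ^ 3 := by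
      intro M hM h1 h2 h3
      calc x * y * z ≤ M * M * M := by gcongr
        _ = M ^ 3 := by ring
    have px : 0 ≤ x ^ 3 := by positivity
    have py : 0 ≤ y ^ 3 := by positivity
    have pz : 0 ≤ z ^ 3 := by positivity
    rcases le_total x y with h1 | h1
    · rcases le_total y z with h2 | h2
      · have := hm z hz (h1.trans h2) h2 le_rfl
        linarith
      · have := hm y hy h1 le_rfl h2
        linarith
    · rcases le_total x z with h2 | h2
      · have := hm z hz h2 (h1.trans h2) le_rfl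
        linarith
      · have := hm x hx le_rfl h1 h2
        linarith
  have h1 := h (a ^ 2) (b ^ 2) (c ^ 2) (by positivity) (by positivity) (by positivity)
  calc (a * b * c) ^ 2 = a ^ 2 * b ^ 2 * c ^ 2 := by ring
    _ ≤ (a ^ 2) ^ 3 + (b ^ 2) ^ 3 + (c ^ 2) ^ 3 := h1
    _ = a ^ 6 + b ^ 6 + c ^ 6 := by ring

lemma sum_D6 : ∃ C : ℝ, 0 < C ∧ ∀ H i : ℕ, i < H → ∑ j ∈ range H, D6 i j ≤ C * H := by
  obtain ⟨C, hC, h⟩ := Pool.Agent.H646.MomentM.rat_moment 6
  refine ⟨2 * C, by positivity, fun H i hi => ?_⟩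
  have h1 : ∑ j ∈ (range H).filter (fun j => j < i), D6 i j ≤ C * H := by
    have e1 : ∑ j ∈ (range H).filter (fun j => j < i), D6 i j = ∑ n ∈ ((range H).filter (fun j => j < i)).image (fun j => i - j), rat n ^ 6 := by
      rw [sum_image]
      · apply sum_congr rfl
        intro j hj
        rw [mem_filter] at hj
        unfold D6
        rw [if_neg (by omega)]
        congr 2
        unfold dd
        omega
      · intro a ha b hb hab
        rw [mem_coe, mem_filter] at ha hb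
        simp only at hab
        omega
    rw [e1]
    refine le_trans (sum_le_sum_of_subset_of_nonneg ?_ fun _ _ _ => ?_) (h H)
    · intro n hn
      rw [mem_image] at hn
      obtain ⟨j, hj, rfl⟩ := hn
      rw [mem_filter] at hj
      rw [mem_Icc]
      omega
    · unfold rat; positivity
  have h2 : ∑ j ∈ (range H).filter (fun j => ¬ j < i), D6 i j ≤ C * H := by
    have e0 : ∑ j ∈ (range H).filter (fun j => ¬ j < i), D6 i j = ∑ j ∈ (range H).filter (fun j => i < j), D6 i j := by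
      symm
      apply sum_subset
      · intro j hj
        rw [mem_filter] at hj ⊢
        exact ⟨hj.1, by omega⟩
      · intro j hj hj2
        rw [mem_filter] at hj hj2
        have : i = j := by
          by_contra hne
          exact hj2 ⟨hj.1, by omega⟩
        unfold D6
        rw [if_pos this]
    have e1 : ∑ j ∈ (range H).filter (fun j => i < j), D6 i j = ∑ n ∈ ((range H).filter (fun j => i < j)).image (fun j => j - i), rat n ^ 6 := by
      rw [sum_image]
      · apply sum_congr rfl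
        intro j hj
        rw [mem_filter] at hj
        unfold D6
        rw [if_neg (by omega)]
        congr 2
        unfold dd
        omega
      · intro a ha b hb hab
        rw [mem_coe, mem_filter] at ha hb
        simp only at hab
        omega
    rw [e0, e1]
    refine le_trans (sum_le_sum_of_subset_of_nonneg ?_ fun _ _ _ => ?_) (h H)
    · intro n hn
      rw [mem_image] at hn
      obtain ⟨j, hj, rfl⟩ := hn
      rw [mem_filter, mem_range] at hj
      rw [mem_Icc]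
      omega
    · unfold rat; positivity
  rw [← sum_filter_add_sum_filter_not (range H) (fun j => j < i)]
  linarith

end Pool.Agent.R502.FG
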