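import Pool.Agent.R502.FG.Second
import Pool.Agent.R502.FG.Trip

/-! The third factorial moment, and the classes with two primes. -/

set_option autoImplicit false
set_option maxHeartbeats 4000000

namespace Pool.Agent.R502.FG
open Finset Filter
open Pool.Agent.H646 (rat)
open Pool.Agent.H442R2.KF (piN)

open Classical in
/-- the indicator of distinct triples of primes -/
noncomputable def ind (q a i j l : ℕ) : ℝ :=
  if (i ≠ j ∧ j ≠ l ∧ i ≠ l) ∧ ((a + i * q).Prime ∧ (a + j * q).Prime ∧ (a + l * q).Prime) then 1 else 0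

lemma ind_nonneg (q a i j l : ℕ) : 0 ≤ ind q a i j l := by
  unfold ind
  split_ifs
  · exact zero_le_one
  · exact le_rfl

lemma falling (H q a : ℕ) : (Np H q a : ℝ) * (Np H q a - 1) * (Np H q a - 2) ≤
    ∑ i ∈ range H, ∑ j ∈ range H, ∑ l ∈ range H, ind q a i j l := by
  classical
  set A := (range H).filter (fun i => (a + i * q).Prime) with hA
  have hN : Np H q a = A.card := rfl
  have hsub : A ⊆ range H := filter_subset _ _
  have h1 : (Np H q a : ℝ) * (Np H q a - 1) * (Np H q a - 2) =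
      ∑ i ∈ A, ∑ j ∈ A.erase i, ∑ l ∈ (A.erase i).erase j, (1 : ℝ) := by
    have e1 : ∀ i ∈ A, ∀ j ∈ A.erase i, ∑ l ∈ (A.erase i).erase j, (1 : ℝ) = (A.card : ℝ) - 2 := by
      intro i hi j hj
      rw [sum_const, nsmul_eq_mul, mul_one, cast_card_erase_of_mem hj, cast_card_erase_of_mem hi]
      ring
    have e2 : ∀ i ∈ A, ∑ j ∈ A.erase i, ∑ l ∈ (A.erase i).erase j, (1 : ℝ) = ((A.card : ℝ) - 1) * ((A.card : ℝ) - 2) := by
      intro i hi
      rw [sum_congr rfl (e1 i hi), sum_const, nsmul_eq_mul, cast_card_erase_of_mem hi]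
    rw [sum_congr rfl e2, sum_const, nsmul_eq_mul, hN]
    ring
  have h2 : ∑ i ∈ A, ∑ j ∈ A.erase i, ∑ l ∈ (A.erase i).erase j, (1 : ℝ) =
      ∑ i ∈ A, ∑ j ∈ A.erase i, ∑ l ∈ (A.erase i).erase j, ind q a i j l := by
    apply sum_congr rfl
    intro i hi
    apply sum_congr rfl
    intro j hj
    apply sum_congr rfl
    intro l hl
    rw [mem_erase, mem_erase] at hl
    rw [mem_erase] at hj
    have p1 : (a + i * q).Prime := (mem_filter.1 hi).2
    have p2 : (a + j * q).Prime := (mem_filter.1 hj.2).2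
    have p3 : (a + l * q).Prime := (mem_filter.1 hl.2.2).2
    unfold ind
    rw [if_pos ⟨⟨fun h => hj.1 h.symm, fun h => hl.1 h.symm, fun h => hl.2.1 h.symm⟩, p1, p2, p3⟩]
  rw [h1, h2]
  calc ∑ i ∈ A, ∑ j ∈ A.erase i, ∑ l ∈ (A.erase i).erase j, ind q a i j l
      ≤ ∑ i ∈ A, ∑ j ∈ A.erase i, ∑ l ∈ range H, ind q a i j l := by
        apply sum_le_sum
        intro i _
        apply sum_le_sum
        intro j _
        exact sum_le_sum_of_subset_of_nonneg (((erase_subset _ _).trans (erase_subset _ _)).trans hsub)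
          fun _ _ _ => ind_nonneg _ _ _ _ _
    _ ≤ ∑ i ∈ A, ∑ j ∈ range H, ∑ l ∈ range H, ind q a i j l := by
        apply sum_le_sum
        intro i _
        exact sum_le_sum_of_subset_of_nonneg ((erase_subset _ _).trans hsub)
          fun _ _ _ => sum_nonneg fun _ _ => ind_nonneg _ _ _ _ _
    _ ≤ ∑ i ∈ range H, ∑ j ∈ range H, ∑ l ∈ range H, ind q a i j l :=
        sum_le_sum_of_subset_of_nonneg hsub
          fun _ _ _ => sum_nonneg fun _ _ => sum_nonneg fun _ _ => ind_nonneg _ _ _ _ _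

lemma sum_ind (q i j l : ℕ) : ∑ a ∈ Icc 1 q, ind q a i j l =
    if (i ≠ j ∧ j ≠ l ∧ i ≠ l) then (TT q i j l : ℝ) else 0 := by
  classical
  split_ifs with h
  · unfold ind TT
    rw [card_eq_sum_ones, sum_filter]
    push_cast
    apply sum_congr rfl
    intro a _
    by_cases h2 : (a + i * q).Prime ∧ (a + j * q).Prime ∧ (a + l * q).Prime
    · rw [if_pos ⟨h, h2⟩, if_pos h2]
    · rw [if_neg (fun h3 => h2 h3.2), if_neg h2]
  · apply sum_eq_zero
    intro a _
    unfold ind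
    rw [if_neg (fun h3 => h h3.1)]

lemma sum_falling (H q : ℕ) : ∑ a ∈ Icc 1 q, (Np H q a : ℝ) * (Np H q a - 1) * (Np H q a - 2) ≤
    ∑ i ∈ range H, ∑ j ∈ range H, ∑ l ∈ range H, if (i ≠ j ∧ j ≠ l ∧ i ≠ l) then (TT q i j l : ℝ) else 0 := by
  refine (sum_le_sum fun a _ => falling H q a).trans (le_of_eq ?_)
  rw [sum_comm]
  apply sum_congr rfl
  intro i _
  rw [sum_comm]
  apply sum_congr rfl
  intro j _
  rw [sum_comm]
  apply sum_congr rfl
  intro l _
  exact sum_ind q i j l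

/-- the third factorial moment -/
theorem third (Λ : ℝ) (hΛ : 0 < Λ) : ∃ C : ℝ, 0 < C ∧ ∀ᶠ q : ℕ in atTop, ∀ H : ℕ,
    (H : ℝ) * q ≤ Λ * (Nat.totient q * Real.log q) →
    ∑ a ∈ Icc 1 q, (Np H q a : ℝ) * (Np H q a - 1) * (Np H q a - 2) ≤ C * Nat.totient q := by
  classical
  obtain ⟨K, x0, hK, hx0, hT⟩ := triple
  obtain ⟨C6, hC6, hD⟩ := sum_D6
  obtain ⟨C3, hC3, hrat⟩ := H336V.TotLog.div_totient_le 1 (by norm_num)
  have t1 : Tendsto (fun k : ℕ => Real.log k) atTop atTop :=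
    Real.tendsto_log_atTop.comp tendsto_natCast_atTop_atTop
  have hK0 : (0 : ℝ) < K := by exact_mod_cast (by omega : 0 < K)
  have hKr : (2 : ℝ) ≤ K := by exact_mod_cast hK
  have t2 : Tendsto (fun k : ℕ => (k : ℝ) ^ (1 / (2 * (K : ℝ)))) atTop atTop :=
    (tendsto_rpow_atTop (by positivity)).comp tendsto_natCast_atTop_atTop
  refine ⟨2 * Λ ^ 3 + 6 * C6 * (2 * K) ^ 3 * Λ ^ 3, by positivity, ?_⟩
  filter_upwards [t1.eventually_ge_atTop 1, t1.eventually_ge_atTop C3, t2.eventually_ge_atTop 2,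
    t2.eventually_ge_atTop x0, ev_log 2 (1 / 2) 4 (by norm_num) (by norm_num), eventually_ge_atTop 3] with
    q hL1 hL3 g2 g3 g5 hq3
  intro H hHq
  set L := Real.log q with hL
  have hL0 : 0 < L := by linarith
  have hq1 : 1 ≤ q := by omega
  have hqr : (1 : ℝ) ≤ q := by exact_mod_cast hq1
  have hq0 : (0 : ℝ) < q := by linarith
  have hφ0 : (0 : ℝ) < Nat.totient q := by exact_mod_cast Nat.totient_pos.2 (by omega)
  set Φ : ℝ := (Nat.totient q : ℝ) with hΦ
  have hφq : Φ ≤ q := by rw [hΦ]; exact_mod_cast Nat.totient_le q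
  have hratq : rat q = q / Φ := rfl
  set Q : ℝ := q / Φ with hQ
  have hQ1 : 1 ≤ Q := by rw [hQ, le_div_iff₀ hφ0]; linarith
  have hQ0 : 0 < Q := by linarith
  have hQL : Q ≤ 2 * L := by
    have h1 := hrat q hq1
    rw [← hQ, ← hL] at h1
    linarith
  have hHQ : (H : ℝ) * Q ≤ Λ * L := by
    rw [hQ, ← mul_div_assoc, div_le_iff₀ hφ0]
    linarith
  have hH0 : (0 : ℝ) ≤ H := Nat.cast_nonneg _
  have hHL : (H : ℝ) ≤ Λ * L := (le_mul_of_one_le_right hH0 hQ1).trans hHQ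
  -- the level
  set z : ℝ := (q : ℝ) ^ (1 / (2 * (K : ℝ))) with hz
  have hz2 : z ^ 2 = (q : ℝ) ^ (1 / (K : ℝ)) := by
    rw [hz, ← Real.rpow_natCast, ← Real.rpow_mul hq0.le]
    congr 1
    push_cast
    field_simp
  set y : ℕ := ⌊z ^ 2⌋₊ with hy
  have hyz2 : (y : ℝ) ≤ z ^ 2 := Nat.floor_le (by positivity)
  have hyz : z ≤ y := by
    have := Nat.lt_floor_add_one (z ^ 2)
    rw [← hy] at this
    nlinarith
  have hyx0 : x0 ≤ y := by exact_mod_cast g3.trans hyz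
  have hy2 : 2 ≤ y := hx0.trans hyx0
  have hyK : y ^ K ≤ q := by
    have h1 : (y : ℝ) ^ K ≤ q := by
      calc (y : ℝ) ^ K ≤ (z ^ 2) ^ K := pow_le_pow_left₀ (by positivity) hyz2 K
        _ = (q : ℝ) := by
          rw [hz2, ← Real.rpow_natCast, ← Real.rpow_mul hq0.le]
          have : 1 / (K : ℝ) * K = 1 := by field_simp
          rw [this, Real.rpow_one]
    exact_mod_cast h1
  have hsq : √(q : ℝ) = (q : ℝ) ^ (1 / 2 : ℝ) := Real.sqrt_eq_rpow _
  have hysq : (y : ℝ) ≤ √(q : ℝ) := by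
    rw [hsq]
    refine hyz2.trans ?_
    rw [hz2]
    apply Real.rpow_le_rpow_of_exponent_le hqr
    exact one_div_le_one_div_of_le (by norm_num) hKr
  have hlogy : L / (2 * K) ≤ Real.log y := by
    have h1 : Real.log z ≤ Real.log y := Real.log_le_log (by positivity) hyz
    rw [hz, Real.log_rpow hq0, ← hL] at h1
    calc L / (2 * K) = 1 / (2 * (K : ℝ)) * L := by ring
      _ ≤ _ := h1
  have hlogy0 : 0 < Real.log y := lt_of_lt_of_le (by positivity) hlogy
  set W : ℝ := 1 / Real.log y with hW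
  have hW0 : 0 ≤ W := by positivity
  have hWle : W ≤ 2 * K / L := by
    rw [hW, div_le_div_iff₀ hlogy0 hL0]
    rw [div_le_iff₀ (by positivity)] at hlogy
    linarith
  -- the bound of every triple
  set E0 : ℝ := 2 * √(q : ℝ) with hE0
  have hbd : ∀ i j l : ℕ, (if (i ≠ j ∧ j ≠ l ∧ i ≠ l) then (TT q i j l : ℝ) else 0) ≤
      E0 + 2 * q * W ^ 3 * Q ^ 2 * (D6 i j + D6 j l + D6 i l) := by
    intro i j l
    have d1 := D6_nonneg i j
    have d2 := D6_nonneg j l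
    have d3 := D6_nonneg i l
    have hE00 : 0 ≤ E0 := by positivity
    split_ifs with h
    · refine (hT q y hyx0 hyK i j l h.1 h.2.1 h.2.2).trans ?_
      have e1 : D6 i j = rat (dd i j) ^ 6 := by unfold D6; rw [if_neg h.1]
      have e2 : D6 j l = rat (dd j l) ^ 6 := by unfold D6; rw [if_neg h.2.1]
      have e3 : D6 i l = rat (dd i l) ^ 6 := by unfold D6; rw [if_neg h.2.2]
      have rn : ∀ n, 0 ≤ rat n := fun n => by unfold rat; positivity
      have h1 := amgm3 (rn (dd i j)) (rn (dd j l)) (rn (dd i l))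
      rw [← e1, ← e2, ← e3] at h1
      have h2 : 2 * (q * (W ^ 3 * (rat q * rat (dd i j) * rat (dd j l) * rat (dd i l)) ^ 2)) =
          2 * q * W ^ 3 * Q ^ 2 * (rat (dd i j) * rat (dd j l) * rat (dd i l)) ^ 2 := by
        rw [hratq]
        ring
      rw [h2]
      have h3 : 2 * q * W ^ 3 * Q ^ 2 * (rat (dd i j) * rat (dd j l) * rat (dd i l)) ^ 2 ≤
          2 * q * W ^ 3 * Q ^ 2 * (D6 i j + D6 j l + D6 i l) := mul_le_mul_of_nonneg_left h1 (by positivity)
      linarith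
    · positivity
  have hDs : ∑ i ∈ range H, ∑ j ∈ range H, D6 i j ≤ H * (C6 * H) := by
    calc ∑ i ∈ range H, ∑ j ∈ range H, D6 i j ≤ ∑ i ∈ range H, C6 * H := by
          apply sum_le_sum
          intro i hi
          exact hD H i (mem_range.1 hi)
      _ = H * (C6 * H) := by rw [sum_const, card_range, nsmul_eq_mul]
  have hD0 : 0 ≤ ∑ i ∈ range H, ∑ j ∈ range H, D6 i j := sum_nonneg fun _ _ => sum_nonneg fun _ _ => D6_nonneg _ _
  have hsum : ∑ i ∈ range H, ∑ j ∈ range H, ∑ l ∈ range H,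
      (if (i ≠ j ∧ j ≠ l ∧ i ≠ l) then (TT q i j l : ℝ) else 0) ≤
      (H : ℝ) ^ 3 * E0 + 2 * q * W ^ 3 * Q ^ 2 * (3 * (C6 * (H : ℝ) ^ 3)) := by
    calc ∑ i ∈ range H, ∑ j ∈ range H, ∑ l ∈ range H, (if (i ≠ j ∧ j ≠ l ∧ i ≠ l) then (TT q i j l : ℝ) else 0)
        ≤ ∑ i ∈ range H, ∑ j ∈ range H, ∑ l ∈ range H, (E0 + 2 * q * W ^ 3 * Q ^ 2 * (D6 i j + D6 j l + D6 i l)) := by
          apply sum_le_sum
          intro i _
          apply sum_le_sum
          intro j _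
          apply sum_le_sum
          intro l _
          exact hbd i j l
      _ = (H : ℝ) ^ 3 * E0 + 2 * q * W ^ 3 * Q ^ 2 * (3 * ((H : ℝ) * ∑ i ∈ range H, ∑ j ∈ range H, D6 i j)) := by
          simp only [sum_add_distrib, ← mul_sum, sum_const, card_range, nsmul_eq_mul, mul_add]
          ring
      _ ≤ (H : ℝ) ^ 3 * E0 + 2 * q * W ^ 3 * Q ^ 2 * (3 * (C6 * (H : ℝ) ^ 3)) := by
          have h1 : (H : ℝ) * ∑ i ∈ range H, ∑ j ∈ range H, D6 i j ≤ C6 * (H : ℝ) ^ 3 := by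
            calc (H : ℝ) * ∑ i ∈ range H, ∑ j ∈ range H, D6 i j ≤ H * (H * (C6 * H)) := mul_le_mul_of_nonneg_left hDs hH0
              _ = C6 * (H : ℝ) ^ 3 := by ring
          have h2 : 2 * q * W ^ 3 * Q ^ 2 * (3 * ((H : ℝ) * ∑ i ∈ range H, ∑ j ∈ range H, D6 i j)) ≤
              2 * q * W ^ 3 * Q ^ 2 * (3 * (C6 * (H : ℝ) ^ 3)) := by
            apply mul_le_mul_of_nonneg_left _ (by positivity)
            linarith
          linarith
  refine (sum_falling H q).trans (hsum.trans ?_)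
  -- the first term
  have hΦQ : (q : ℝ) = Φ * Q := by rw [hQ]; field_simp
  have f1 : (H : ℝ) ^ 3 * E0 ≤ 2 * Λ ^ 3 * Φ := by
    have h1 : (H : ℝ) ^ 3 ≤ (Λ * L) ^ 3 := pow_le_pow_left₀ hH0 hHL 3
    have h2 : L ^ 3 * √(q : ℝ) ≤ Φ := by
      rw [← hsq] at g5
      have h3 : 2 * L ^ 4 * √(q : ℝ) ≤ (q : ℝ) := by
        calc 2 * L ^ 4 * √(q : ℝ) ≤ √(q : ℝ) * √(q : ℝ) := mul_le_mul_of_nonneg_right g5 (Real.sqrt_nonneg _)
          _ = (q : ℝ) := Real.mul_self_sqrt hq0.le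
      have h4 : (L ^ 3 * √(q : ℝ)) * (2 * L) ≤ Φ * (2 * L) := by
        calc (L ^ 3 * √(q : ℝ)) * (2 * L) = 2 * L ^ 4 * √(q : ℝ) := by ring
          _ ≤ (q : ℝ) := h3
          _ = Φ * Q := hΦQ
          _ ≤ Φ * (2 * L) := mul_le_mul_of_nonneg_left hQL hφ0.le
      exact le_of_mul_le_mul_right h4 (by positivity)
    calc (H : ℝ) ^ 3 * E0 ≤ (Λ * L) ^ 3 * E0 := mul_le_mul_of_nonneg_right h1 (by positivity)
      _ = 2 * Λ ^ 3 * (L ^ 3 * √(q : ℝ)) := by rw [hE0]; ring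
      _ ≤ 2 * Λ ^ 3 * Φ := mul_le_mul_of_nonneg_left h2 (by positivity)
  have f2 : 2 * q * W ^ 3 * Q ^ 2 * (3 * (C6 * (H : ℝ) ^ 3)) ≤ 6 * C6 * (2 * K) ^ 3 * Λ ^ 3 * Φ := by
    calc 2 * q * W ^ 3 * Q ^ 2 * (3 * (C6 * (H : ℝ) ^ 3)) ≤ 2 * q * (2 * K / L) ^ 3 * Q ^ 2 * (3 * (C6 * (H : ℝ) ^ 3)) := by
          gcongr
      _ = (6 * C6 * (2 * K) ^ 3 / L ^ 3) * (Φ * (H * Q) ^ 3) := by
          rw [hΦQ, div_pow]
          ring
      _ ≤ (6 * C6 * (2 * K) ^ 3 / L ^ 3) * (Φ * (Λ * L) ^ 3) := by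
          gcongr
      _ = 6 * C6 * (2 * K) ^ 3 * Λ ^ 3 * Φ := by
          field_simp
  linarith

lemma count_ineq (N : ℕ) (T : ℝ) (hT : 1 ≤ T) : (N : ℝ) * (N - 1) ≤
    (T + 2) ^ 2 * (if 2 ≤ N then 1 else 0) + 1 / T * (N * (N - 1) * (N - 2)) := by
  split_ifs with h
  · have hN : (2 : ℝ) ≤ N := by exact_mod_cast h
    have hp : 0 ≤ (N : ℝ) * (N - 1) := mul_nonneg (by linarith) (by linarith)
    by_cases h2 : T ≤ (N : ℝ) - 2
    · have h3 : (N : ℝ) * (N - 1) ≤ 1 / T * (N * (N - 1) * (N - 2)) := by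
        rw [one_div, inv_mul_eq_div, le_div_iff₀ (by linarith)]
        exact mul_le_mul_of_nonneg_left h2 hp
      have : 0 ≤ (T + 2) ^ 2 := by positivity
      linarith
    · push Not at h2
      have h3 : 0 ≤ 1 / T * ((N : ℝ) * (N - 1) * (N - 2)) := by
        apply mul_nonneg (by positivity)
        exact mul_nonneg hp (by linarith)
      have h4 : (N : ℝ) * (N - 1) ≤ (T + 2) * (T + 2) :=
        mul_le_mul (by linarith) (by linarith) (by linarith) (by linarith)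
      nlinarith
  · have hN : N = 0 ∨ N = 1 := by omega
    rcases hN with h | h
    · rw [h]; simp
    · rw [h]; simp

/-- positive proportion of the classes contain two primes -/
theorem twos (lo hi : ℝ) (h1 : 1 / 2 < lo) (h2 : lo ≤ hi) : ∃ c : ℝ, 0 < c ∧ ∀ᶠ q : ℕ in atTop, ∀ H : ℕ,
    lo * (Nat.totient q * Real.log q) ≤ (H : ℝ) * q → (H : ℝ) * q ≤ hi * (Nat.totient q * Real.log q) →
    c * Nat.totient q ≤ (((Icc 1 q).filter (fun a => 2 ≤ Np H q a)).card : ℝ) := by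
  classical
  set η : ℝ := min (lo - 1 / 2) (1 / 2) with hη
  have hη0 : 0 < η := lt_min (by linarith) (by norm_num)
  have hη1 : η ≤ lo - 1 / 2 := min_le_left _ _
  have hη2 : η ≤ 1 / 2 := min_le_right _ _
  have hlo : 0 < lo := by linarith
  have hhi : 0 < hi := by linarith
  set δ : ℝ := 1 / 2 - η / 4 with hδ
  set ε : ℝ := η / 8 with hε
  obtain ⟨C3, hC3, hthird⟩ := third hi hhi
  set c1 : ℝ := lo * (η / 2) with hc1
  have hc10 : 0 < c1 := by positivity
  set T : ℝ := 2 * C3 / c1 + 1 with hT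
  have hT1 : 1 ≤ T := by
    have : 0 < 2 * C3 / c1 := by positivity
    linarith
  refine ⟨c1 / 2 / (T + 2) ^ 2, by positivity, ?_⟩
  have t1 : Tendsto (fun k : ℕ => Real.log k) atTop atTop :=
    Real.tendsto_log_atTop.comp tendsto_natCast_atTop_atTop
  have f0 : ∀ᶠ x : ℝ in atTop, (Nat.primeCounting ⌊x⌋₊ : ℝ) * Real.log x / x ≤ 1 + ε :=
    (Pool.Agent.Cov.PNT.pi_tendsto.eventually_le_const (by linarith [show 0 < ε by positivity] : (1 : ℝ) < 1 + ε))
  obtain ⟨x₀, hx₀⟩ := eventually_atTop.1 f0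
  filter_upwards [second δ ε hi (by linarith) (by linarith) (by positivity) hhi, hthird,
    t1.eventually_ge_atTop 1, eventually_ge_atTop 3, eventually_ge_atTop ⌈x₀⌉₊] with q hsec hth hL1 hq3 hqx
  intro H hlow hup
  set L := Real.log q with hL
  have hL0 : 0 < L := by linarith
  have hqr : (1 : ℝ) ≤ q := by exact_mod_cast (by omega : 1 ≤ q)
  have hq0 : (0 : ℝ) < q := by linarith
  have hφ0 : (0 : ℝ) < Nat.totient q := by exact_mod_cast Nat.totient_pos.2 (by omega)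
  set Φ : ℝ := (Nat.totient q : ℝ) with hΦ
  have hH1 : 1 ≤ H := by
    rcases Nat.eq_zero_or_pos H with h | h
    · rw [h, Nat.cast_zero, zero_mul] at hlow
      have : 0 < lo * (Φ * L) := by positivity
      linarith
    · exact h
  have hH1r : (1 : ℝ) ≤ H := by exact_mod_cast hH1
  set x : ℝ := (H : ℝ) * q with hx
  have hx0 : 0 < x := by positivity
  have hS2 := hsec H hH1 hup
  have hS3 := hth H hup
  set u : ℝ := x / (Φ * L) with hu
  have hulo : lo ≤ u := by rw [hu, le_div_iff₀ (by positivity)]; exact hlow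
  have hxu : x / L = Φ * u := by rw [hu]; field_simp
  -- the number of primes
  have hPI : (piN (H * q) : ℝ) ≤ (1 + ε) * (x / L) := by
    have g1 : x₀ ≤ x := by
      have g2 : x₀ ≤ q := (Nat.le_ceil x₀).trans (by exact_mod_cast hqx)
      have g3 : (q : ℝ) ≤ x := by rw [hx]; exact le_mul_of_one_le_left hq0.le hH1r
      linarith
    have g2 := hx₀ x g1
    have g3 : ⌊x⌋₊ = H * q := by
      rw [hx, ← Nat.cast_mul, Nat.floor_natCast]
    rw [g3, ← piN_eq, div_le_iff₀ hx0] at g2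
    have g4 : L ≤ Real.log x := by
      apply Real.log_le_log hq0
      rw [hx]; exact le_mul_of_one_le_left hq0.le hH1r
    have g5 : (piN (H * q) : ℝ) * L ≤ (1 + ε) * x :=
      (mul_le_mul_of_nonneg_left g4 (Nat.cast_nonneg _)).trans g2
    rw [mul_div_assoc', le_div_iff₀ hL0]
    exact g5
  have hsumN : ∑ a ∈ Icc 1 q, (Np H q a : ℝ) = piN (H * q) := by
    have := sum_Np H q
    exact_mod_cast this
  have hpairs : c1 * Φ ≤ ∑ a ∈ Icc 1 q, (Np H q a : ℝ) * (Np H q a - 1) := by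
    have e1 : ∑ a ∈ Icc 1 q, (Np H q a : ℝ) * (Np H q a - 1) =
        ∑ a ∈ Icc 1 q, (Np H q a : ℝ) ^ 2 - ∑ a ∈ Icc 1 q, (Np H q a : ℝ) := by
      rw [← sum_sub_distrib]
      apply sum_congr rfl
      intro a _
      ring
    rw [e1, hsumN]
    have e2 : x / L * (u + δ - ε) - (1 + ε) * (x / L) = Φ * (u * (u + δ - 1 - 2 * ε)) := by
      rw [hxu]; ring
    have e3 : lo * (η / 2) ≤ u * (u + δ - 1 - 2 * ε) := by
      apply mul_le_mul hulo _ (by positivity) (by linarith)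
      rw [hδ, hε]
      linarith
    have e4 : Φ * (lo * (η / 2)) ≤ Φ * (u * (u + δ - 1 - 2 * ε)) := mul_le_mul_of_nonneg_left e3 hφ0.le
    rw [hc1]
    linarith
  have hcount : ∑ a ∈ Icc 1 q, (Np H q a : ℝ) * (Np H q a - 1) ≤
      (T + 2) ^ 2 * (((Icc 1 q).filter (fun a => 2 ≤ Np H q a)).card : ℝ) +
        1 / T * ∑ a ∈ Icc 1 q, (Np H q a : ℝ) * (Np H q a - 1) * (Np H q a - 2) := by
    have e1 : (((Icc 1 q).filter (fun a => 2 ≤ Np H q a)).card : ℝ) = ∑ a ∈ Icc 1 q, (if 2 ≤ Np H q a then (1 : ℝ) else 0) := by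
      rw [card_eq_sum_ones, sum_filter]
      push_cast
      rfl
    rw [e1, mul_sum, mul_sum, ← sum_add_distrib]
    apply sum_le_sum
    intro a _
    exact count_ineq _ T hT1
  have hfin : 1 / T * ∑ a ∈ Icc 1 q, (Np H q a : ℝ) * (Np H q a - 1) * (Np H q a - 2) ≤ c1 / 2 * Φ := by
    calc 1 / T * ∑ a ∈ Icc 1 q, (Np H q a : ℝ) * (Np H q a - 1) * (Np H q a - 2) ≤ 1 / T * (C3 * Φ) :=
          mul_le_mul_of_nonneg_left hS3 (by positivity)
      _ ≤ c1 / 2 * Φ := by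
          have e1 : 1 / T * C3 ≤ c1 / 2 := by
            rw [one_div, inv_mul_eq_div, div_le_iff₀ (by linarith)]
            have e2 : c1 / 2 * T = C3 + c1 / 2 := by
              rw [hT]; field_simp
            rw [e2]
            linarith
          calc 1 / T * (C3 * Φ) = (1 / T * C3) * Φ := by ring
            _ ≤ c1 / 2 * Φ := mul_le_mul_of_nonneg_right e1 hφ0.le
  have hT2 : 0 < (T + 2) ^ 2 := by positivity
  rw [div_mul_eq_mul_div, div_le_iff₀ hT2]
  linarith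

end Pool.Agent.R502.FG
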